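import Pool.Agent.P.MP_af70e5_co.General

/-!
The graph, its cycle vectors and the verified checker for the Hilbert basis property.
-/

open Finset

namespace Pool.Agent.P.MP_af70e5_co

/-- First ends of the fourteen edges. -/
def sv : Fin 14 → Fin 7 := ![0, 0, 1, 1, 1, 2, 2, 3, 4, 4, 0, 1, 2, 3]

/-- Second ends of the fourteen edges. -/
def tv : Fin 14 → Fin 7 := ![3, 5, 2, 3, 4, 5, 6, 6, 5, 6, 1, 6, 4, 5]

/-- Positive and negative edges of the generators. -/
def gens : List (List ℕ × List ℕ) :=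
  [([3, 10], [0]),
   ([0, 10], [3]),
   ([0, 3], [10]),
   ([6, 11], [2]),
   ([2, 11], [6]),
   ([2, 6], [11]),
   ([7, 11], [3]),
   ([3, 11], [7]),
   ([3, 7], [11]),
   ([9, 11], [4]),
   ([4, 11], [9]),
   ([4, 9], [11]),
   ([4, 12], [2]),
   ([2, 12], [4]),
   ([2, 4], [12]),
   ([8, 12], [5]),
   ([5, 12], [8]),
   ([5, 8], [12]),
   ([9, 12], [6]),
   ([6, 12], [9]),
   ([6, 9], [12]),
   ([1, 13], [0]),
   ([0, 13], [1]),
   ([0, 1], [13]),
   ([2, 5, 10], [1]),
   ([1, 5, 10], [2]),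
   ([1, 2, 10], [5]),
   ([1, 2, 5], [10]),
   ([4, 8, 10], [1]),
   ([1, 8, 10], [4]),
   ([1, 4, 10], [8]),
   ([1, 4, 8], [10]),
   ([3, 5, 13], [2]),
   ([2, 5, 13], [3]),
   ([2, 3, 13], [5]),
   ([2, 3, 5], [13]),
   ([6, 7, 13], [5]),
   ([5, 7, 13], [6]),
   ([5, 6, 13], [7]),
   ([5, 6, 7], [13]),
   ([4, 8, 13], [3]),
   ([3, 8, 13], [4]),
   ([3, 4, 13], [8]),
   ([3, 4, 8], [13]),
   ([8, 9, 13], [7]),
   ([7, 9, 13], [8]),
   ([7, 8, 13], [9]),
   ([7, 8, 9], [13]),
   ([3, 8, 9, 11, 13], []),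
   ([7, 8, 9, 13], []),
   ([3, 4, 8, 13], []),
   ([6, 7, 8, 12, 13], []),
   ([2, 3, 8, 12, 13], []),
   ([5, 6, 7, 13], []),
   ([2, 3, 5, 13], []),
   ([5, 7, 9, 12, 13], []),
   ([2, 3, 5, 9, 12, 13], [6]),
   ([3, 4, 8, 9, 12, 13], [6]),
   ([3, 4, 6, 8, 12, 13], [9]),
   ([2, 3, 5, 6, 12, 13], [9]),
   ([3, 4, 6, 8, 9, 13], [12]),
   ([2, 3, 5, 6, 9, 13], [12]),
   ([1, 4, 6, 8, 9, 10], [12]),
   ([1, 2, 5, 6, 9, 10], [12]),
   ([0, 1, 5, 6, 7], []),
   ([1, 4, 6, 8, 10, 12], [9]),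
   ([0, 1, 6, 7, 8, 12], []),
   ([1, 2, 5, 6, 10, 12], [9]),
   ([1, 8, 9, 10, 11], []),
   ([1, 4, 8, 10], []),
   ([1, 2, 8, 10, 12], []),
   ([0, 1, 5, 7, 9, 12], []),
   ([1, 2, 5, 10], []),
   ([0, 1, 7, 8, 9], []),
   ([1, 2, 5, 9, 10, 12], [6]),
   ([1, 4, 8, 9, 10, 12], [6])]

/-- Positive edges. -/
def gp (i : ℕ) : List ℕ := (gens.getD i ([], [])).1

/-- Negative edges. -/
def gn (i : ℕ) : List ℕ := (gens.getD i ([], [])).2

/-- The generators. -/
def g (i : ℕ) (e : Fin 14) : ℤ := ((gp i).count e.val : ℤ) - ((gn i).count e.val : ℤ)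

/-- Edges at a vertex. -/
def star (v : Fin 7) : List ℕ :=
  ![[0, 1, 10], [2, 3, 4, 10, 11], [2, 5, 6, 12], [0, 3, 7, 13], [4, 8, 9, 12], [1, 5, 8, 13],
    [6, 7, 9, 11]] v

lemma inc_eq : ∀ (e : Fin 14) (v : Fin 7), inc sv tv e v = ((star v).count e.val : ℤ) := by
  decide +kernel

lemma star_lt : ∀ v : Fin 7, ∀ x ∈ star v, x < 14 := by decide +kernel

lemma gens_lt : ∀ i < 76, (∀ x ∈ gp i, x < 14) ∧ (∀ x ∈ gn i, x < 14) ∧ (gn i).length ≤ 1 := by
  decide +kernel

lemma g_even : ∀ i < 76, EvZ sv tv (g i) := by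
  unfold EvZ
  decide +kernel

lemma sum_count (a : ℕ → ℤ) (l : List ℕ) (hl : ∀ x ∈ l, x < 14) :
    ∑ e : Fin 14, a e.val * (l.count e.val : ℤ) = (l.map a).sum := by
  induction l with
  | nil => simp
  | cons x l ih =>
    have hx : x < 14 := hl x (by simp)
    simp only [List.count_cons, Nat.cast_add, mul_add, sum_add_distrib, List.map_cons,
      List.sum_cons, ih (fun y hy => hl y (by simp [hy]))]
    rw [add_comm]
    congr 1
    rw [sum_eq_single ⟨x, hx⟩]
    · simp
    · intro e _ he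
      have : ¬ x = e.val := fun h => he (Fin.ext h.symm)
      simp [this]
    · simp

/-- Fast bit test. -/
def tb (x i : ℕ) : Bool := Nat.beq (Nat.mod (Nat.shiftRight x i) 2) 1

lemma tb_eq (x i : ℕ) : tb x i = x.testBit i := by
  rw [Nat.testBit_eq_decide_div_mod_eq, ← Nat.shiftRight_eq_div_pow]
  exact Bool.eq_iff_iff.2 (by rw [tb, Nat.beq_eq, decide_eq_true_iff]; rfl)

/-- Removing bits. -/
def rem (x y : ℕ) : ℕ := Nat.xor x (Nat.land x y)

lemma testBit_rem (x y i : ℕ) : (rem x y).testBit i = (x.testBit i && !y.testBit i) := by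
  change (x ^^^ (x &&& y)).testBit i = _
  rw [Nat.testBit_xor, Nat.testBit_and]
  cases x.testBit i <;> cases y.testBit i <;> rfl

/-- Checking a predicate on an interval of length a power of two. -/
def allPow (f : ℕ → Bool) : ℕ → ℕ → Bool
  | 0, b => f b
  | d + 1, b => allPow f d b && allPow f d (Nat.add b (Nat.pow 2 d))

lemma allPow_sound (f : ℕ → Bool) (d : ℕ) : ∀ b, allPow f d b = true →
    ∀ k < 2 ^ d, f (b + k) = true := by
  induction d with
  | zero =>
    intro b h k hk
    have : k = 0 := by omega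
    subst this
    exact h
  | succ d ih =>
    intro b h k hk
    simp only [allPow, Bool.and_eq_true] at h
    by_cases h1 : k < 2 ^ d
    · exact ih b h.1 k h1
    · have h2 := ih _ h.2 (k - 2 ^ d) (by rw [pow_succ] at hk; omega)
      have h3 : Nat.add b (Nat.pow 2 d) + (k - 2 ^ d) = b + k := by
        change b + 2 ^ d + (k - 2 ^ d) = b + k
        omega
      rwa [h3] at h2

/-- A functional that is even on the lattice, with recorded zero and two values. -/
def NormalOK (Z W : ℕ) : Prop :=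
  ∃ a : Fin 14 → ℤ, (∀ x, EvZ sv tv x → Even (∑ e, a e * x e)) ∧
    (∀ i < 76, Z.testBit i = true → ∑ e, a e * g i e = 0) ∧
    (∀ i < 76, W.testBit i = true → ∑ e, a e * g i e = 2)

/-- Hexadecimal digit. -/
def dig (A e : ℕ) : ℕ := Nat.mod (Nat.shiftRight A (Nat.mul 4 e)) 16

/-- Sum of digits along a list. -/
def sd (A : ℕ) : List ℕ → ℕ
  | [] => 0
  | e :: l => Nat.add (dig A e) (sd A l)

lemma sd_eq (A : ℕ) (l : List ℕ) :
    (l.map (fun e => (dig A e : ℤ) - 8)).sum = sd A l - 8 * l.length := by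
  induction l with
  | nil => simp [sd]
  | cons x l ih =>
    simp only [List.map_cons, List.sum_cons, ih, sd, List.length_cons, Nat.add_eq]
    push_cast
    ring

/-- Boolean check of a functional. -/
def okNormal (A c Z W : ℕ) : Bool :=
  (List.finRange 14).all (fun e => Nat.beq (Nat.mod (dig A e.val) 2)
    (Nat.mod (Nat.add (Nat.shiftRight c (sv e).val) (Nat.shiftRight c (tv e).val)) 2)) &&
  (List.range 76).all (fun i =>
    (!tb Z i || Nat.beq (Nat.add (sd A (gp i)) (Nat.mul 8 (gn i).length))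
      (Nat.add (sd A (gn i)) (Nat.mul 8 (gp i).length))) &&
    (!tb W i || Nat.beq (Nat.add (sd A (gp i)) (Nat.mul 8 (gn i).length))
      (Nat.add (Nat.add (sd A (gn i)) (Nat.mul 8 (gp i).length)) 2)))

lemma dot_g (A i : ℕ) (hi : i < 76) : ∑ e : Fin 14, ((dig A e.val : ℤ) - 8) * g i e
    = (sd A (gp i) - 8 * (gp i).length) - (sd A (gn i) - 8 * (gn i).length) := by
  simp only [g, mul_sub, sum_sub_distrib]
  rw [sum_count (fun e => (dig A e : ℤ) - 8) _ (gens_lt i hi).1,
    sum_count (fun e => (dig A e : ℤ) - 8) _ (gens_lt i hi).2.1, sd_eq, sd_eq]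

lemma okNormal_sound {A c Z W : ℕ} (h : okNormal A c Z W = true) : NormalOK Z W := by
  simp only [okNormal, Bool.and_eq_true, List.all_eq_true, List.mem_finRange, List.mem_range,
    Nat.beq_eq, Bool.or_eq_true, Bool.not_eq_true', tb_eq, forall_true_left, Nat.add_eq,
    Nat.mul_eq] at h
  obtain ⟨h1, h2⟩ := h
  refine ⟨fun e => (dig A e.val : ℤ) - 8, fun x hx => ?_, fun i hi hZ => ?_, fun i hi hW => ?_⟩
  · let cv : Fin 7 → ℤ := fun v => (Nat.shiftRight c v.val : ℕ)
    have h3 : ∑ e, (cv (sv e) + cv (tv e)) * x e = ∑ v, cv v * ∑ e, x e * inc sv tv e v := by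
      simp only [mul_sum]
      rw [sum_comm]
      refine sum_congr rfl fun e _ => ?_
      simp only [inc, mul_add, sum_add_distrib, mul_ite, mul_one, mul_zero, sum_ite_eq, mem_univ,
        if_true]
      ring
    have h4 : ∑ e : Fin 14, ((dig A e.val : ℤ) - 8) * x e
        = ∑ e, (cv (sv e) + cv (tv e)) * x e
          + ∑ e : Fin 14, ((dig A e.val : ℤ) - 8 - (cv (sv e) + cv (tv e))) * x e := by
      rw [← sum_add_distrib]
      exact sum_congr rfl fun e _ => by ring
    rw [h4, h3]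
    refine (even_sum _ fun v _ => (hx v).mul_left _).add (even_sum _ fun e _ => Even.mul_right ?_ _)
    have h5 : dig A e.val % 2 = (Nat.shiftRight c (sv e).val + Nat.shiftRight c (tv e).val) % 2 :=
      h1 e
    simp only [cv]
    rw [Int.even_iff]
    omega
  · rw [dot_g A i hi]
    have := ((h2 i hi).1).resolve_left (by simp [hZ])
    omega
  · rw [dot_g A i hi]
    have := ((h2 i hi).2).resolve_left (by simp [hW])
    omega

/-- The vector with coefficients `c`. -/
def comb (c : ℕ → ℝ) (e : Fin 14) : ℝ := ∑ i ∈ range 76, c i * (g i e : ℝ)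

/-- Coefficients outside the mask are integers. -/
def IntOff (Al : ℕ) (c : ℕ → ℝ) : Prop := ∀ i < 76, Al.testBit i = false → ∃ z : ℤ, c i = z

/-- One peeling step. -/
def peel1 (Z W Al : ℕ) : ℕ :=
  cond (Nat.beq (Nat.land (rem Al Z) W) (rem Al Z) &&
    Nat.beq (rem Al Z) (Nat.pow 2 (Nat.log2 (rem Al Z)))) (Nat.land Al Z) Al

lemma peel1_sound {Z W Al : ℕ} (hN : NormalOK Z W) {p : Fin 14 → ℤ} (hp : EvZ sv tv p)
    {c : ℕ → ℝ} (hc : ∀ e, comb c e = p e) (h : IntOff Al c) : IntOff (peel1 Z W Al) c := by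
  unfold peel1
  cases hb : (Nat.beq (Nat.land (rem Al Z) W) (rem Al Z) &&
    Nat.beq (rem Al Z) (Nat.pow 2 (Nat.log2 (rem Al Z))))
  · exact h
  simp only [Bool.and_eq_true, Nat.beq_eq] at hb
  obtain ⟨hW, hT⟩ := hb
  obtain ⟨a, ha, hZ0, hW2⟩ := hN
  intro i hi hbit
  by_cases hAl : Al.testBit i = false
  · exact h i hi hAl
  have hZi : Z.testBit i = false := by
    change (Al &&& Z).testBit i = false at hbit
    rw [Nat.testBit_and] at hbit
    simpa [hAl] using hbit
  have huniq : ∀ j, (rem Al Z).testBit j = true → j = Nat.log2 (rem Al Z) := by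
    intro j hj
    rw [hT] at hj
    exact (of_decide_eq_true ((Nat.testBit_two_pow).symm.trans hj)).symm
  have hxi : (rem Al Z).testBit i = true := by simpa [testBit_rem, hZi] using hAl
  have hWi : W.testBit i = true := by
    rw [← hW] at hxi
    change (rem Al Z &&& W).testBit i = true at hxi
    rw [Nat.testBit_and, Bool.and_eq_true] at hxi
    exact hxi.2
  have hterm : ∀ j ∈ (range 76).erase i, ∃ z : ℤ, c j * ((∑ e, a e * g j e : ℤ) : ℝ) = 2 * z := by
    intro j hj
    obtain ⟨hji, hj⟩ := mem_erase.1 hj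
    rw [mem_range] at hj
    by_cases hAj : Al.testBit j = false
    · obtain ⟨z, hz⟩ := h j hj hAj
      obtain ⟨y, hy⟩ := ha _ (g_even j hj)
      exact ⟨z * y, by rw [hz, hy]; push_cast; ring⟩
    · have hZj : Z.testBit j = true := by
        by_contra hn
        have hn' : Z.testBit j = false := by simpa using hn
        have : (rem Al Z).testBit j = true := by simpa [testBit_rem, hn'] using hAj
        exact hji ((huniq j this).trans (huniq i hxi).symm)
      exact ⟨0, by rw [hZ0 j hj hZj]; simp⟩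
  choose! z hz using hterm
  obtain ⟨y, hy⟩ := ha p hp
  have h1 : ((∑ e, a e * p e : ℤ) : ℝ) = ∑ j ∈ range 76, c j * ((∑ e, a e * g j e : ℤ) : ℝ) := by
    push_cast
    simp only [← hc, comb, mul_sum]
    rw [sum_comm]
    exact sum_congr rfl fun j _ => sum_congr rfl fun e _ => by ring
  rw [← add_sum_erase _ _ (mem_range.2 hi), sum_congr rfl hz, hW2 i hi hWi, hy, ← mul_sum] at h1
  refine ⟨y - ∑ j ∈ (range 76).erase i, z j, ?_⟩
  push_cast at h1 ⊢
  linarith

/-- Several peeling steps. -/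
def peelN (Zf Wf : ℕ → ℕ) : ℕ → ℕ → ℕ → ℕ
  | 0, _, Al => Al
  | n + 1, ks, Al =>
    peelN Zf Wf n (Nat.div ks 512) (peel1 (Zf (Nat.mod ks 512)) (Wf (Nat.mod ks 512)) Al)

lemma peelN_sound {Zf Wf : ℕ → ℕ} (hN : ∀ k < 512, NormalOK (Zf k) (Wf k)) {p : Fin 14 → ℤ}
    (hp : EvZ sv tv p) {c : ℕ → ℝ} (hc : ∀ e, comb c e = p e) (n : ℕ) :
    ∀ ks Al, IntOff Al c → IntOff (peelN Zf Wf n ks Al) c := by
  induction n with
  | zero => exact fun _ _ h => h
  | succ n ih =>
    exact fun ks Al h => ih _ _ (peel1_sound (hN _ (Nat.mod_lt _ (by norm_num))) hp hc h)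

/-- `p` is a natural combination of the generators. -/
def Good (p : Fin 14 → ℤ) : Prop := ∃ n : ℕ → ℕ, ∀ e, p e = ∑ i ∈ range 76, n i * g i e

lemma good_of_int {p : Fin 14 → ℤ} {c : ℕ → ℝ} (hc : ∀ e, comb c e = p e)
    (h0 : ∀ i < 76, -1 < c i) (h : ∀ i < 76, ∃ z : ℤ, c i = z) : Good p := by
  choose! z hz using h
  refine ⟨fun i => (z i).toNat, fun e => ?_⟩
  have h1 : (p e : ℝ) = ((∑ i ∈ range 76, z i * g i e : ℤ) : ℝ) := by
    rw [← hc, comb]
    push_cast
    exact sum_congr rfl fun i hi => by rw [hz i (mem_range.1 hi)]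
  rw [Int.cast_injective h1]
  refine sum_congr rfl fun i hi => ?_
  have h2 := h0 i (mem_range.1 hi)
  rw [hz i (mem_range.1 hi)] at h2
  have h3 : (-1 : ℤ) < z i := by exact_mod_cast h2
  rw [Int.toNat_of_nonneg (by omega)]

lemma sum_count_range (f : ℕ → ℝ) (l : List ℕ) (hl : ∀ x ∈ l, x < 76) :
    ∑ i ∈ range 76, (l.count i : ℝ) * f i = (l.map f).sum := by
  induction l with
  | nil => simp
  | cons x l ih =>
    have hx : x < 76 := hl x (by simp)
    simp only [List.count_cons, Nat.cast_add, add_mul, sum_add_distrib, List.map_cons,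
      List.sum_cons, ih (fun y hy => hl y (by simp [hy]))]
    rw [add_comm]
    congr 1
    rw [sum_eq_single x]
    · simp
    · intro e _ he
      simp [Ne.symm he]
    · simp [hx]

lemma cast_map_sum (l : List ℕ) (e : Fin 14) :
    (l.map (fun i => (g i e : ℝ))).sum = (((l.map (fun i => g i e)).sum : ℤ) : ℝ) := by
  induction l with
  | nil => simp
  | cons x l ih => simp [ih]

lemma comb_shift (c : ℕ → ℝ) (τ : ℝ) (u v : List ℕ) (hu : ∀ x ∈ u, x < 76) (hv : ∀ x ∈ v, x < 76)
    (h : ∀ e, (u.map (fun i => g i e)).sum = (v.map (fun i => g i e)).sum) (e : Fin 14) :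
    comb (fun i => c i - τ * u.count i + τ * v.count i) e = comb c e := by
  have h1 := sum_count_range (fun i => (g i e : ℝ)) u hu
  have h2 := sum_count_range (fun i => (g i e : ℝ)) v hv
  rw [cast_map_sum] at h1 h2
  simp only [comb, add_mul, sub_mul, sum_add_distrib, sum_sub_distrib, mul_assoc, ← mul_sum, h1,
    h2, h e]
  ring

/-- Certificate trees. -/
inductive Tr : Type
  | b (i : ℕ) (x y : Tr) : Tr
  | p (k i : ℕ) (x : Tr) : Tr
  | r (k : ℕ) : Tr
  | q (n ks : ℕ) (x : Tr) : Tr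
  | d : Tr
  | h (j : ℕ) (S : List ℕ) (n ks : ℕ) : Tr

/-- Boolean check of a linear relation. -/
def relEq (u v : List ℕ) : Bool :=
  (List.finRange 14).all (fun e => decide ((u.map (fun i => g i e)).sum = (v.map (fun i => g i e)).sum))

/-- The checker. -/
def chk (Zf Wf CF : ℕ → ℕ) (ul : ℕ → List ℕ) : Tr → ℕ → ℕ → Bool
  | .b i x y, In, Al => chk Zf Wf CF ul x (Nat.lor In (Nat.pow 2 i)) (rem Al (CF i)) &&
      chk Zf Wf CF ul y In (rem Al (Nat.pow 2 i))
  | .p k i x, In, Al => !(ul k).isEmpty && (ul k).all (fun j => Nat.beq j i || tb In j) &&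
      chk Zf Wf CF ul x In (rem Al (Nat.pow 2 i))
  | .r k, In, _ => !(ul k).isEmpty && (ul k).all (fun j => tb In j)
  | .q n ks x, In, Al => chk Zf Wf CF ul x In (peelN Zf Wf n ks Al)
  | .d, _, Al => Nat.beq Al 0
  | .h j S n ks, _, Al => decide (j < 76) && !tb Al j && decide S.Nodup && !S.isEmpty &&
      S.all (fun i => decide (i < 76) && tb Al i) && relEq S [j, j] &&
      Nat.beq (peelN Zf Wf n ks (Nat.lor (rem Al (Nat.pow 2 (S.headD 0))) (Nat.pow 2 j))) 0

lemma intOff_rem {Al M : ℕ} {c : ℕ → ℝ} (h : IntOff Al c) (hM : ∀ j, M.testBit j = true → c j = 0) :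
    IntOff (rem Al M) c := by
  intro i hi hb
  by_cases h1 : Al.testBit i = false
  · exact h i hi h1
  · exact ⟨0, by simpa using hM i (by simpa [testBit_rem, h1] using hb)⟩

lemma pow_bit {i j : ℕ} (h : (Nat.pow 2 i).testBit j = true) : j = i :=
  (of_decide_eq_true ((Nat.testBit_two_pow).symm.trans h)).symm

theorem chk_sound {Zf Wf CF : ℕ → ℕ} {ul : ℕ → List ℕ} (hN : ∀ k < 512, NormalOK (Zf k) (Wf k))
    {p : Fin 14 → ℤ} (hp : EvZ sv tv p) {c : ℕ → ℝ} (hc : ∀ e, comb c e = p e) (h0 : ∀ i, 0 ≤ c i)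
    (hrel : ∀ k, ul k ≠ [] → ∃ j ∈ ul k, c j = 0)
    (hconf : ∀ i j, (CF i).testBit j = true → 0 < c i → c j = 0) (t : Tr) :
    ∀ In Al, chk Zf Wf CF ul t In Al = true → (∀ i, In.testBit i = true → 0 < c i) →
      IntOff Al c → Good p := by
  induction t with
  | b i x y ihx ihy =>
    intro In Al h hIn hAl
    simp only [chk, Bool.and_eq_true] at h
    rcases (h0 i).lt_or_eq with hi | hi
    · refine ihx _ _ h.1 (fun j hj => ?_) (intOff_rem hAl fun j hj => hconf i j hj hi)
      change (In ||| Nat.pow 2 i).testBit j = true at hj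
      rw [Nat.testBit_or, Bool.or_eq_true] at hj
      rcases hj with hj | hj
      · exact hIn j hj
      · exact pow_bit hj ▸ hi
    · exact ihy _ _ h.2 hIn (intOff_rem hAl fun j hj => pow_bit hj ▸ hi.symm)
  | p k i x ih =>
    intro In Al h hIn hAl
    simp only [chk, Bool.and_eq_true, Bool.not_eq_true', List.isEmpty_eq_false_iff,
      List.all_eq_true, Bool.or_eq_true, Nat.beq_eq, tb_eq] at h
    obtain ⟨j, hj, hj0⟩ := hrel k h.1.1
    have hi : c i = 0 := by
      rcases h.1.2 j hj with h1 | h1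
      · exact h1 ▸ hj0
      · exact absurd hj0 (hIn j h1).ne'
    exact ih _ _ h.2 hIn (intOff_rem hAl fun j hj => pow_bit hj ▸ hi)
  | r k =>
    intro In Al h hIn _
    simp only [chk, Bool.and_eq_true, Bool.not_eq_true', List.isEmpty_eq_false_iff,
      List.all_eq_true, tb_eq] at h
    obtain ⟨j, hj, hj0⟩ := hrel k h.1
    exact absurd hj0 (hIn j (h.2 j hj)).ne'
  | q n ks x ih =>
    intro In Al h hIn hAl
    exact ih _ _ h hIn (peelN_sound hN hp hc n ks Al hAl)
  | d =>
    intro In Al h _ hAl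
    simp only [chk, Nat.beq_eq] at h
    subst h
    exact good_of_int hc (fun i _ => by linarith [h0 i]) (fun i hi => hAl i hi (by simp))
  | h j S n ks =>
    intro In Al h _ hAl
    simp only [chk, Bool.and_eq_true, Bool.not_eq_true', List.isEmpty_eq_false_iff,
      List.all_eq_true, tb_eq, decide_eq_true_eq, Nat.beq_eq, relEq, List.mem_finRange,
      forall_true_left] at h
    obtain ⟨⟨⟨⟨⟨⟨hj, hjAl⟩, hnd⟩, hne⟩, hS⟩, hr⟩, hpeel⟩ := h
    obtain ⟨T, S', rfl⟩ := List.exists_cons_of_ne_nil hne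
    rw [List.headD_cons] at hpeel
    have hjS : j ∉ T :: S' := fun h => by simp [(hS j h).2] at hjAl
    have hshift := fun τ e => (comb_shift c τ (T :: S') [j, j] (fun x hx => (hS x hx).1)
      (fun x hx => by
        have : x = j := by simpa using hx
        exact this ▸ hj) hr e).trans (hc e)
    have hcnt : ∀ i, (((T :: S').count i : ℕ) : ℝ) = if i ∈ T :: S' then 1 else 0 := by
      intro i
      split_ifs with h
      · rw [List.count_eq_one_of_mem hnd h, Nat.cast_one]
      · rw [List.count_eq_zero_of_not_mem h, Nat.cast_zero]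
    have hcntj : ∀ i, ((([j, j] : List ℕ).count i : ℕ) : ℝ) = if i = j then 2 else 0 := by
      intro i
      split_ifs with h
      · subst h
        simp
      · simp [Ne.symm h]
    have hint := peelN_sound hN hp (hshift (c T)) n ks
      (Nat.lor (rem Al (Nat.pow 2 T)) (Nat.pow 2 j)) (by
        intro i hi hb
        change (rem Al (Nat.pow 2 T) ||| Nat.pow 2 j).testBit i = false at hb
        rw [Nat.testBit_or, Bool.or_eq_false_iff, testBit_rem] at hb
        have hij : i ≠ j := by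
          rintro rfl
          have := hb.2
          change (2 ^ i).testBit i = false at this
          simp at this
        simp only [hcnt, hcntj, if_neg hij]
        by_cases hiT : i = T
        · subst hiT
          exact ⟨0, by simp⟩
        · have h1 : (Nat.pow 2 T).testBit i = false := by
            by_contra hn
            exact hiT (pow_bit (by simpa using hn))
          have h2 : Al.testBit i = false := by
            have := hb.1
            rw [h1] at this
            simpa using this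
          have h3 : i ∉ T :: S' := fun h => by simp [(hS i h).2] at h2
          obtain ⟨z, hz⟩ := hAl i hi h2
          exact ⟨z, by simp only [if_neg h3, hz]; ring⟩)
    rw [hpeel] at hint
    simp only [IntOff, hcnt, hcntj] at hint
    obtain ⟨z₁, hz₁⟩ := hint j hj (by simp)
    obtain ⟨z₂, hz₂⟩ := hAl j hj hjAl
    rw [if_neg hjS, if_pos rfl, hz₂] at hz₁
    rcases Int.even_or_odd' (z₁ - z₂) with ⟨y, hy | hy⟩
    · have hT : c T = y := by
        have : ((z₁ - z₂ : ℤ) : ℝ) = ((2 * y : ℤ) : ℝ) := by rw [hy]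
        push_cast at this
        linarith
      refine good_of_int hc (fun i _ => by linarith [h0 i]) (fun i hi => ?_)
      obtain ⟨z, hz⟩ := hint i hi (by simp)
      rw [hT] at hz
      split_ifs at hz
      · exact ⟨z - y, by push_cast; linarith⟩
      · exact ⟨z + y, by push_cast; linarith⟩
      · exact ⟨z - 2 * y, by push_cast; linarith⟩
      · exact ⟨z, by linarith⟩
    · have hT : c T = y + 1 / 2 := by
        have : ((z₁ - z₂ : ℤ) : ℝ) = ((2 * y + 1 : ℤ) : ℝ) := by rw [hy]
        push_cast at this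
        linarith
      refine good_of_int (hshift (1 / 2)) (fun i _ => ?_) (fun i hi => ?_)
      · simp only [hcnt, hcntj]
        split_ifs <;> linarith [h0 i]
      · obtain ⟨z, hz⟩ := hint i hi (by simp)
        rw [hT] at hz
        simp only [hcnt, hcntj]
        split_ifs at hz ⊢
        · exact ⟨z - y, by push_cast; linarith⟩
        · exact ⟨z + y, by push_cast; linarith⟩
        · exact ⟨z - 2 * y, by push_cast; linarith⟩
        · exact ⟨z, by linarith⟩

/-- Membership in the cone of the first 48 generators. -/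
def InCone (x : Fin 14 → ℝ) : Prop :=
  ∃ c : ℕ → ℝ, (∀ i, 0 ≤ c i) ∧ (∀ i, 48 ≤ i → c i = 0) ∧ ∀ e, comb c e = x e

/-- A relation that decreases the weight. -/
def RelOK (ω : ℕ → ℕ) (r : List ℕ × List ℕ) : Prop :=
  (∀ x ∈ r.1, x < 48) ∧ (∀ x ∈ r.2, x < 48) ∧
    (∀ e, (r.1.map (fun i => g i e)).sum = (r.2.map (fun i => g i e)).sum) ∧
    (r.2.map ω).sum < (r.1.map ω).sum

/-- Boolean form. -/
def relOK (ω : ℕ → ℕ) (r : List ℕ × List ℕ) : Bool :=
  r.1.all (fun x => decide (x < 48)) && r.2.all (fun x => decide (x < 48)) && relEq r.1 r.2 &&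
    decide ((r.2.map ω).sum < (r.1.map ω).sum)

lemma relOK_sound {ω : ℕ → ℕ} {r : List ℕ × List ℕ} (h : relOK ω r = true) : RelOK ω r := by
  simp only [relOK, Bool.and_eq_true, List.all_eq_true, decide_eq_true_eq, relEq,
    List.mem_finRange, forall_true_left] at h
  exact ⟨h.1.1.1, h.1.1.2, h.1.2, h.2⟩

lemma cast_map_sum_nat (l : List ℕ) (ω : ℕ → ℕ) :
    (l.map (fun i => (ω i : ℝ))).sum = (((l.map ω).sum : ℕ) : ℝ) := by
  induction l with
  | nil => simp
  | cons x l ih => simp [ih]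

theorem exists_minimal (ω : ℕ → ℕ) (hω : ∀ i, 1 ≤ ω i) {x : Fin 14 → ℝ} (hx : InCone x) :
    ∃ c : ℕ → ℝ, (∀ i, 0 ≤ c i) ∧ (∀ i, 48 ≤ i → c i = 0) ∧ (∀ e, comb c e = x e) ∧
      ∀ r, RelOK ω r → ∃ j ∈ r.1, c j = 0 := by
  obtain ⟨c₀, h1, h2, h3⟩ := hx
  let W : (ℕ → ℝ) → ℝ := fun c => ∑ i ∈ range 76, c i * ω i
  have hWc : Continuous W := by fun_prop
  let K : Set (ℕ → ℝ) :=
    {c | (∀ i, 0 ≤ c i) ∧ (∀ i, 48 ≤ i → c i = 0) ∧ (∀ e, comb c e = x e) ∧ W c ≤ W c₀}
  have hKc : IsClosed K := by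
    simp only [K, Set.ofPred_and, Set.ofPred_forall]
    refine (isClosed_iInter fun i => isClosed_le continuous_const (continuous_apply i)).inter
      ((isClosed_iInter fun i => isClosed_iInter fun _ =>
        isClosed_eq (continuous_apply i) continuous_const).inter
      ((isClosed_iInter fun e => isClosed_eq (by unfold comb; fun_prop) continuous_const).inter
      (isClosed_le hWc continuous_const)))
  have hW0 : 0 ≤ W c₀ := sum_nonneg fun i _ => mul_nonneg (h1 i) (Nat.cast_nonneg _)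
  have hKb : K ⊆ Set.Icc (fun _ => 0) (fun _ => W c₀) := by
    rintro c ⟨g1, g2, -, g4⟩
    refine ⟨g1, fun i => ?_⟩
    by_cases hi : 48 ≤ i
    · simpa [g2 i hi] using hW0
    · have h4 : c i * ω i ≤ W c :=
        single_le_sum (f := fun i => c i * (ω i : ℝ))
          (fun i _ => mul_nonneg (g1 i) (Nat.cast_nonneg _)) (mem_range.2 (by omega))
      have h5 : (1 : ℝ) ≤ ω i := by exact_mod_cast hω i
      have h6 := g1 i
      change c i ≤ W c₀
      nlinarith
  obtain ⟨c, ⟨g1, g2, g3, g4⟩, hmin⟩ := (isCompact_Icc.of_isClosed_subset hKc hKb).exists_isMinOn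
    ⟨c₀, h1, h2, h3, le_rfl⟩ hWc.continuousOn
  refine ⟨c, g1, g2, g3, fun r hr => ?_⟩
  obtain ⟨r1, r2, r3, r4⟩ := hr
  by_contra hcon
  push Not at hcon
  have hne : r.1 ≠ [] := by
    intro h
    simp [h] at r4
  obtain ⟨j, hj, hjmin⟩ := exists_min_image r.1.toFinset c (by simpa using hne)
  have hjpos : 0 < c j := lt_of_le_of_ne (g1 j) (hcon j (by simpa using hj)).symm
  have hlen : (0 : ℝ) < r.1.length := by exact_mod_cast List.length_pos_iff.2 hne
  set τ : ℝ := c j / r.1.length with hτ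
  have hτpos : 0 < τ := div_pos hjpos hlen
  have hW : W (fun i => c i - τ * r.1.count i + τ * r.2.count i) < W c := by
    have e1 := sum_count_range (fun i => (ω i : ℝ)) r.1 (fun x hx => (r1 x hx).trans (by norm_num))
    have e2 := sum_count_range (fun i => (ω i : ℝ)) r.2 (fun x hx => (r2 x hx).trans (by norm_num))
    rw [cast_map_sum_nat] at e1 e2
    have e3 : (((r.2.map ω).sum : ℕ) : ℝ) < ((r.1.map ω).sum : ℕ) := by exact_mod_cast r4
    simp only [W, add_mul, sub_mul, sum_add_distrib, sum_sub_distrib, mul_assoc, ← mul_sum, e1, e2]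
    nlinarith
  refine absurd (hmin (a := fun i => c i - τ * r.1.count i + τ * r.2.count i)
    ⟨fun i => ?_, fun i hi => ?_, fun e => ?_, hW.le.trans g4⟩) (not_le.2 hW)
  · have e1 : 0 ≤ τ * r.2.count i := by positivity
    have e2 : τ * r.1.count i ≤ c i := by
      by_cases hi : i ∈ r.1
      · have e3 : (r.1.count i : ℝ) ≤ r.1.length := by exact_mod_cast List.count_le_length
        calc τ * r.1.count i ≤ τ * r.1.length := by gcongr
          _ = c j := by rw [hτ]; field_simp
          _ ≤ c i := hjmin i (by simpa using hi)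
      · simpa [List.count_eq_zero_of_not_mem hi] using g1 i
    linarith
  · have e1 : i ∉ r.1 := fun h => absurd (r1 i h) (by omega)
    have e2 : i ∉ r.2 := fun h => absurd (r2 i h) (by omega)
    simp [List.count_eq_zero_of_not_mem e1, List.count_eq_zero_of_not_mem e2, g2 i hi]
  · exact (comb_shift c τ r.1 r.2 (fun x hx => (r1 x hx).trans (by norm_num))
      (fun x hx => (r2 x hx).trans (by norm_num)) r3 e).trans (g3 e)

lemma rep_of_good {p : Fin 14 → ℤ} (h : Good p) : Rep sv tv p := by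
  obtain ⟨n, hn⟩ := h
  have : p = fun e => ∑ i ∈ range 76, n i * g i e := funext hn
  rw [this]
  refine rep_sum _ (fun i e => n i * g i e) fun i hi => Rep.nsmul ?_ _
  rw [mem_range] at hi
  obtain ⟨-, h2, h3⟩ := gens_lt i hi
  have hev := g_even i hi
  unfold g at hev ⊢
  match hgn : gn i, h2, h3 with
  | [], _, _ => simpa using rep_nonneg (s := sv) (t := tv) (fun e => (gp i).count e.val)
  | [r], h2, _ =>
    have hr : r < 14 := h2 r (by simp)
    have hc : ∀ e : Fin 14, ((([r] : List ℕ).count e.val : ℕ) : ℤ)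
        = if e = ⟨r, hr⟩ then 1 else 0 := by
      intro e
      by_cases h : e = ⟨r, hr⟩
      · simp [h]
      · have : ¬ r = e.val := fun h' => h (Fin.ext h'.symm)
        simp [h, this]
    rw [hgn] at hev
    simp only [hc] at hev ⊢
    exact rep_term (⟨r, hr⟩, fun e => (gp i).count e.val)
      (hev.of_congr fun e => ⟨if e = ⟨r, hr⟩ then 1 else 0, by ring⟩)
  | _ :: _ :: _, _, h3 => simp at h3

lemma InCone.add {x y : Fin 14 → ℝ} (hx : InCone x) (hy : InCone y) :
    InCone (fun e => x e + y e) := by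
  obtain ⟨c, h1, h2, h3⟩ := hx
  obtain ⟨d, g1, g2, g3⟩ := hy
  refine ⟨fun i => c i + d i, fun i => add_nonneg (h1 i) (g1 i),
    fun i hi => by simp [h2 i hi, g2 i hi], fun e => ?_⟩
  simp only [← h3, ← g3, comb, add_mul, sum_add_distrib]

lemma InCone.smul {x : Fin 14 → ℝ} (hx : InCone x) {a : ℝ} (ha : 0 ≤ a) :
    InCone (fun e => a * x e) := by
  obtain ⟨c, h1, h2, h3⟩ := hx
  refine ⟨fun i => a * c i, fun i => mul_nonneg ha (h1 i), fun i hi => by simp [h2 i hi],
    fun e => ?_⟩
  simp only [← h3, comb, mul_assoc, mul_sum]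

lemma inCone_zero : InCone (fun _ => 0) :=
  ⟨fun _ => 0, fun _ => le_rfl, fun _ _ => rfl, fun e => by simp [comb]⟩

lemma inCone_sum {ι : Type} (S : Finset ι) (x : ι → Fin 14 → ℝ) (hx : ∀ i ∈ S, InCone (x i)) :
    InCone (fun e => ∑ i ∈ S, x i e) := by
  classical
  induction S using Finset.induction_on with
  | empty => simpa using inCone_zero
  | insert i S hi ih =>
    have := (hx i (by simp)).add (ih fun j hj => hx j (by simp [hj]))
    simpa only [sum_insert hi] using this

lemma inCone_list (u : List ℕ) (hu : ∀ x ∈ u, x < 48) :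
    InCone (fun e => (((u.map (fun i => g i e)).sum : ℤ) : ℝ)) := by
  refine ⟨fun i => u.count i, fun i => Nat.cast_nonneg _, fun i hi => ?_, fun e => ?_⟩
  · have : i ∉ u := fun h => absurd (hu i h) (by omega)
    simp [List.count_eq_zero_of_not_mem this]
  · rw [comb, sum_count_range _ u (fun x hx => (hu x hx).trans (by norm_num)), cast_map_sum]

/-- Bit as an integer. -/
def bitZ (Q e : ℕ) : ℤ := cond (tb Q e) 1 0

/-- The mask is an even edge set. -/
def evQ (Q : ℕ) : Bool :=
  (List.finRange 7).all (fun v => decide (((star v).map (bitZ Q)).sum % 2 = 0))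

/-- The list `u` of generators fits below the cycle vector of `(Q, r)`. -/
def okDec (Q r : ℕ) (u : List ℕ) : Bool :=
  u.all (fun x => decide (x < 48)) && (List.finRange 14).all (fun e =>
    decide ((u.map (fun i => g i e)).sum ≤ bitZ Q e.val - cond (Nat.beq e.val r) 2 0))

/-- The certificate covers `Q`. -/
def okQ (cert : List (ℕ × List (List ℕ))) (Q : ℕ) : Bool :=
  !evQ Q || cert.any (fun c => Nat.beq c.1 Q &&
    (List.range 14).all (fun r => !tb Q r || okDec Q r (c.2.getD r [])))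

end Pool.Agent.P.MP_af70e5_co
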