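import Pool.Agent.P.MP_af70e5_co.Data
import Pool.Agent.P.MP_af70e5_co.Tree

/-!
Kernel computations for the Hilbert basis property.
-/

namespace Pool.Agent.P.MP_af70e5_co

/-- Field of width `w` number `k` of a table. -/
def fld (T w k : ℕ) : ℕ := Nat.mod (Nat.shiftRight T (Nat.mul w k)) (Nat.pow 2 w)

noncomputable def Zf (k : ℕ) : ℕ := fld tabZ 80 k

noncomputable def Wf (k : ℕ) : ℕ := fld tabW 80 k

noncomputable def CF (i : ℕ) : ℕ := fld tabF 48 i

noncomputable def ul (k : ℕ) : List ℕ := (rels.getD k ([], [])).1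

noncomputable def wt (i : ℕ) : ℕ := Nat.pow 32 (fld tabP 8 i)

theorem normals_ok :
    allPow (fun k => okNormal (fld tabA 56 k) (fld tabC 8 k) (Zf k) (Wf k)) 9 0 = true := by
  decide +kernel

theorem rels_ok : rels.all (relOK wt) = true := by decide +kernel

theorem conf_ok : (List.range 48).all (fun i => (List.range 48).all (fun j =>
    !tb (CF i) j || rels.any (fun r => r.1.all (fun x => Nat.beq x i || Nat.beq x j)))) = true := by
  decide +kernel

theorem tabF_lt : tabF < 2 ^ (48 * 48) := by decide +kernel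

theorem tree_ok : chk Zf Wf CF ul tree 0 (2 ^ 48 - 1) = true := by decide +kernel

end Pool.Agent.P.MP_af70e5_co
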