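import Pool.Agent.P.MP_af70e5_co.Data

/-!
Kernel computations: every cycle vector lies in the cone.
-/

namespace Pool.Agent.P.MP_af70e5_co

theorem cert_ok : allPow (okQ cert) 14 0 = true := by decide +kernel

theorem units_ok : (List.finRange 14).all (fun f => units.any (fun u =>
    decide (u.1 < 48) && decide (u.2 < 48) && (List.finRange 14).all (fun e =>
      decide (([u.1, u.2].map (fun i => g i e)).sum = if e = f then 2 else 0)))) = true := by
  decide +kernel

end Pool.Agent.P.MP_af70e5_co
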