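import Pool.Agent.P.MP_af70e5_co.Compute
import Pool.Agent.P.MP_af70e5_co.Compute2

/-!
Fractional packings give integer packings in every Eulerian extension of the graph.
-/

open Finset

set_option exponentiation.threshold 4000

namespace Pool.Agent.P.MP_af70e5_co

lemma rel_of_mem {r : List ℕ × List ℕ} (h : r ∈ rels) : RelOK wt r :=
  relOK_sound (List.all_eq_true.1 rels_ok r h)

lemma CF_bit {i j : ℕ} (h : (CF i).testBit j = true) : i < 48 ∧ j < 48 := by
  have h1 : CF i = (tabF >>> (48 * i)) % 2 ^ 48 := rfl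
  rw [h1, Nat.testBit_mod_two_pow, Bool.and_eq_true, decide_eq_true_eq,
    Nat.testBit_shiftRight] at h
  refine ⟨?_, h.1⟩
  by_contra hi
  have h2 : tabF < 2 ^ (48 * i + j) :=
    tabF_lt.trans_le (Nat.pow_le_pow_right (by norm_num) (by omega))
  simp [Nat.testBit_lt_two_pow h2] at h

theorem good_of_inCone {p : Fin 14 → ℤ} (hp : EvZ sv tv p) (h : InCone (fun e => (p e : ℝ))) :
    Good p := by
  obtain ⟨c, h0, h48, hc, hmin⟩ := exists_minimal wt (fun i => Nat.one_le_pow _ _ (by norm_num)) h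
  refine chk_sound (fun k hk => okNormal_sound (A := fld tabA 56 k) (c := fld tabC 8 k) ?_) hp hc h0 (fun k hk => ?_) (fun i j hij hi => ?_)
    tree 0 _ tree_ok (fun i hi => by simp at hi) (fun i _ hi => ⟨0, ?_⟩)
  · simpa using allPow_sound _ 9 0 normals_ok k hk
  · refine hmin _ (rel_of_mem ?_)
    by_cases hk' : k < rels.length
    · rw [List.getD_eq_getElem _ _ hk']
      exact List.getElem_mem hk'
    · exact absurd (by rw [ul, List.getD_eq_default _ _ (not_lt.1 hk')]) hk
  · have h1 := conf_ok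
    simp only [List.all_eq_true, List.mem_range, Bool.or_eq_true, Bool.not_eq_true', tb_eq,
      List.any_eq_true, Nat.beq_eq] at h1
    obtain ⟨r, hr, hr'⟩ := (h1 i (CF_bit hij).1 j (CF_bit hij).2).resolve_left (by simp [hij])
    obtain ⟨x, hx, hx0⟩ := hmin r (rel_of_mem hr)
    rcases hr' x hx with h2 | h2
    · exact absurd (h2 ▸ hx0) hi.ne'
    · exact h2 ▸ hx0
  · rw [Nat.testBit_two_pow_sub_one] at hi
    simpa using h48 i (by simpa using hi)

lemma inCone_nonneg {x : Fin 14 → ℝ} (hx : ∀ e, 0 ≤ x e) : InCone x := by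
  have h1 := units_ok
  simp only [List.all_eq_true, List.mem_finRange, forall_true_left, List.any_eq_true,
    Bool.and_eq_true, decide_eq_true_eq] at h1
  have h2 : ∀ f : Fin 14, InCone (fun e => if e = f then 2 else 0) := by
    intro f
    obtain ⟨u, -, ⟨hu1, hu2⟩, hu⟩ := h1 f
    have := inCone_list [u.1, u.2] (by simp [hu1, hu2])
    simpa only [hu, Int.cast_ite, Int.cast_ofNat, Int.cast_zero] using this
  have h3 := inCone_sum univ _ (fun f _ => (h2 f).smul (a := x f / 2) (by linarith [hx f]))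
  simpa using h3

lemma InCone.of_le {x y : Fin 14 → ℝ} (hx : InCone x) (h : ∀ e, x e ≤ y e) : InCone y := by
  simpa using hx.add (inCone_nonneg (x := fun e => y e - x e) fun e => sub_nonneg.2 (h e))

lemma inCone_term (n : Fin 14 → ℕ) (r : Fin 14) (hn : EvZ sv tv (fun e => (n e : ℤ)))
    (hr : n r = 1) : InCone (fun e => (n e : ℝ) - if e = r then 2 else 0) := by
  let Q := Nat.ofBits (fun e : Fin 14 => decide (n e % 2 = 1))
  have hb : ∀ e : Fin 14, bitZ Q e.val = (n e : ℤ) % 2 := by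
    intro e
    rw [bitZ, tb_eq, Nat.testBit_ofBits_lt _ _ e.2]
    by_cases h : n e % 2 = 1
    · simp only [Fin.eta, h, decide_true, cond_true]
      omega
    · simp only [Fin.eta, h, decide_false, cond_false]
      omega
  have hev : evQ Q = true := by
    simp only [evQ, List.all_eq_true, List.mem_finRange, forall_true_left, decide_eq_true_eq]
    intro v
    have h1 : EvZ sv tv (fun e => bitZ Q e.val) := hn.of_congr fun e => by
      rw [hb, Int.even_iff]
      omega
    have h2 := h1 v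
    simp only [inc_eq] at h2
    rwa [sum_count (bitZ Q) _ (star_lt v), Int.even_iff] at h2
  have h3 := allPow_sound _ 14 0 cert_ok Q (Nat.ofBits_lt_two_pow _)
  simp only [zero_add, okQ, hev, Bool.not_true, Bool.false_or, List.any_eq_true, Bool.and_eq_true,
    List.all_eq_true, List.mem_range, Bool.or_eq_true, Bool.not_eq_true', okDec,
    decide_eq_true_eq, List.mem_finRange, forall_true_left] at h3
  obtain ⟨c, -, -, hc⟩ := h3
  have h4 : tb Q r.val = true := by
    rw [tb_eq, Nat.testBit_ofBits_lt _ _ r.2]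
    simp [hr]
  obtain ⟨h5, h6⟩ := (hc r.val r.2).resolve_left (by simp [h4])
  refine (inCone_list _ h5).of_le fun e => ?_
  have h7 := h6 e
  rw [hb] at h7
  have h8 : cond (Nat.beq e.val r.val) (2 : ℤ) 0 = if e = r then 2 else 0 := by
    by_cases h : e = r
    · simp [h]
    · have : Nat.beq e.val r.val = false := by
        rw [← Bool.not_eq_true, Nat.beq_eq]
        exact fun h' => h (Fin.ext h')
      simp [h, this]
  have h9 : ((c.2.getD r.val []).map (fun i => g i e)).sum
      ≤ (n e : ℤ) - if e = r then 2 else 0 := by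
    rw [h8] at h7
    omega
  exact_mod_cast h9

variable {E' : Type} [Fintype E'] [DecidableEq E'] (φ : E' → Fin 14) (R : Finset (Fin 14))

omit [Fintype E'] in
lemma inCone_circuit (C : Finset E') (hC : Ev (fun x => sv (φ x)) (fun x => tv (φ x)) C)
    (h1 : (C.filter (fun e => φ e ∈ R)).card = 1) : InCone (fun e => (sgn φ R C e : ℝ)) := by
  obtain ⟨r, hr⟩ := card_eq_one.1 h1
  have hrm : r ∈ C.filter (fun e => φ e ∈ R) := by rw [hr]; simp
  obtain ⟨hrC, hrR⟩ := mem_filter.1 hrm
  have hcnt : ∀ e ∈ R, cnt φ C e = if e = φ r then 1 else 0 := by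
    intro e he
    have : C.filter (fun x => φ x = e) = ({r} : Finset E').filter (fun x => φ x = e) := by
      rw [← hr, filter_filter]
      exact filter_congr fun x _ => ⟨fun h => ⟨h ▸ he, h⟩, fun h => h.2⟩
    rw [cnt, this, filter_singleton]
    by_cases h : e = φ r
    · simp [h]
    · simp [h, Ne.symm h]
  refine (inCone_term (cnt φ C) (φ r) ((ev_iff sv tv φ C).1 hC)
    (by rw [hcnt _ hrR, if_pos rfl])).of_le fun e => le_of_eq ?_
  unfold sgn
  by_cases he : e ∈ R
  · rw [if_pos he, hcnt e he]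
    split_ifs <;> norm_num
  · have : e ≠ φ r := fun h => he (h ▸ hrR)
    simp [he, this]

theorem inCone_of_frac (w : Finset E' → ℝ) (h0 : ∀ C, 0 ≤ w C)
    (h1 : ∀ C, w C ≠ 0 → Circ (fun x => sv (φ x)) (fun x => tv (φ x)) C ∧
      (C.filter (fun e => φ e ∈ R)).card = 1)
    (h2 : ∀ e, φ e ∈ R → (∑ C : Finset E', if e ∈ C then w C else 0) = 1)
    (h3 : ∀ e, φ e ∉ R → (∑ C : Finset E', if e ∈ C then w C else 0) ≤ 1) :
    InCone (fun e => (sgn φ R univ e : ℝ)) := by
  have h4 := inCone_sum univ (fun C e => w C * (sgn φ R C e : ℝ)) (fun C _ => by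
    by_cases hC : w C = 0
    · simpa [hC] using inCone_zero
    · exact (inCone_circuit φ R C (h1 C hC).1.2.1 (h1 C hC).2).smul (h0 C))
  refine h4.of_le fun e => ?_
  have h5 := sum_cnt φ w e
  unfold sgn
  by_cases he : e ∈ R
  · simp only [if_pos he, Int.cast_neg, Int.cast_natCast, mul_neg, sum_neg_distrib, h5]
    rw [sum_congr rfl (fun x (hx : x ∈ univ.filter (fun x => φ x = e)) =>
      h2 x ((mem_filter.1 hx).2 ▸ he))]
    simp [cnt]
  · simp only [if_neg he, Int.cast_natCast, h5]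
    refine (sum_le_sum (fun x (hx : x ∈ univ.filter (fun x => φ x = e)) =>
      h3 x ((mem_filter.1 hx).2 ▸ he))).trans ?_
    simp [cnt]

theorem packing_of_frac (hφ : Function.Surjective φ)
    (hE : Ev (fun x => sv (φ x)) (fun x => tv (φ x)) univ)
    (w : Finset E' → ℝ) (h0 : ∀ C, 0 ≤ w C)
    (h1 : ∀ C, w C ≠ 0 → Circ (fun x => sv (φ x)) (fun x => tv (φ x)) C ∧
      (C.filter (fun e => φ e ∈ R)).card = 1)
    (h2 : ∀ e, φ e ∈ R → (∑ C : Finset E', if e ∈ C then w C else 0) = 1)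
    (h3 : ∀ e, φ e ∉ R → (∑ C : Finset E', if e ∈ C then w C else 0) ≤ 1) :
    ∃ f : E' → Finset E', (∀ r, φ r ∈ R →
        Circ (fun x => sv (φ x)) (fun x => tv (φ x)) (f r) ∧
          (f r).filter (fun e => φ e ∈ R) = {r}) ∧
      ∀ r₁ r₂, φ r₁ ∈ R → φ r₂ ∈ R → r₁ ≠ r₂ → Disjoint (f r₁) (f r₂) := by
  refine packing_of_rep sv tv φ R hφ (rep_of_good (good_of_inCone ?_
    (inCone_of_frac φ R w h0 h1 h2 h3)))
  refine ((ev_iff sv tv φ univ).1 hE).of_congr fun e => ?_
  unfold sgn
  split_ifs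
  · exact ⟨-(cnt φ univ e : ℤ), by ring⟩
  · simp

/-- The violated metric. -/
def dm : Fin 14 → ℤ := ![2, 1, 1, 1, 1, 1, 1, 1, 1, 1, 3, 2, 2, 3]

lemma dm_g : ∀ i < 48, 0 ≤ ∑ e, dm e * g i e := by decide +kernel

lemma InCone.dm_nonneg {x : Fin 14 → ℝ} (hx : InCone x) : 0 ≤ ∑ e, (dm e : ℝ) * x e := by
  obtain ⟨c, h1, h2, h3⟩ := hx
  have h4 : ∑ e, (dm e : ℝ) * x e = ∑ j ∈ range 76, c j * ((∑ e, dm e * g j e : ℤ) : ℝ) := by
    push_cast
    simp only [← h3, comb, mul_sum]
    rw [sum_comm]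
    exact sum_congr rfl fun j _ => sum_congr rfl fun e _ => by ring
  rw [h4]
  refine sum_nonneg fun j _ => ?_
  by_cases hj : j < 48
  · exact mul_nonneg (h1 j) (by exact_mod_cast dm_g j hj)
  · simp [h2 j (not_lt.1 hj)]

end Pool.Agent.P.MP_af70e5_co
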