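import Mathlib

/-!
General lemmas on even edge sets, circuits, distances and lifting of routings.
-/

open Finset

set_option linter.unusedSectionVars false

namespace Pool.Agent.P.MP_af70e5_co

section Sets

variable {V E' : Type} [DecidableEq V] [DecidableEq E'] (a b : E' → V)

/-- Every vertex has even degree in `C`. -/
def Ev (C : Finset E') : Prop :=
  ∀ v : V, Even ((C.filter (fun e => a e = v)).card + (C.filter (fun e => b e = v)).card)

/-- Minimal nonempty even set. -/
def Circ (C : Finset E') : Prop :=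
  C.Nonempty ∧ Ev a b C ∧ ∀ D : Finset E', D ⊆ C → D.Nonempty → Ev a b D → D = C

variable {a b}

lemma card_filter_sdiff {C D : Finset E'} (h : D ⊆ C) (P : E' → Prop) [DecidablePred P] :
    ((C \ D).filter P).card + (D.filter P).card = (C.filter P).card := by
  rw [← card_union_of_disjoint (disjoint_filter_filter sdiff_disjoint), ← filter_union,
    sdiff_union_of_subset h]

lemma Ev.sdiff {C D : Finset E'} (hC : Ev a b C) (hD : Ev a b D) (h : D ⊆ C) :
    Ev a b (C \ D) := by
  intro v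
  have h1 := card_filter_sdiff h (fun e => a e = v)
  have h2 := card_filter_sdiff h (fun e => b e = v)
  obtain ⟨x, hx⟩ := hC v
  obtain ⟨y, hy⟩ := hD v
  exact ⟨x - y, by omega⟩

lemma exists_circ_mem (C : Finset E') : Ev a b C → ∀ r ∈ C, ∃ D ⊆ C, r ∈ D ∧ Circ a b D := by
  induction C using Finset.strongInduction with
  | H C ih =>
    intro hC r hr
    by_cases h : ∀ D : Finset E', D ⊆ C → D.Nonempty → Ev a b D → D = C
    · exact ⟨C, subset_rfl, hr, ⟨r, hr⟩, hC, h⟩
    · push Not at h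
      obtain ⟨D, hDC, hne, hD, hneq⟩ := h
      by_cases hrD : r ∈ D
      · obtain ⟨D', h1, h2⟩ := ih D (ssubset_of_subset_of_ne hDC hneq) hD r hrD
        exact ⟨D', h1.trans hDC, h2⟩
      · obtain ⟨D', h1, h2⟩ := ih (C \ D) (sdiff_ssubset hDC hne) (hC.sdiff hD hDC) r
          (mem_sdiff.2 ⟨hr, hrD⟩)
        exact ⟨D', h1.trans sdiff_subset, h2⟩

lemma even_sum_of_circ (l : E' → ℕ∞) (ok : E' → Prop)
    (h : ∀ C, Circ a b C → (∀ e ∈ C, ok e) → Even (∑ e ∈ C, l e)) (C : Finset E') :
    Ev a b C → (∀ e ∈ C, ok e) → Even (∑ e ∈ C, l e) := by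
  induction C using Finset.strongInduction with
  | H C ih =>
    intro hC hok
    rcases C.eq_empty_or_nonempty with rfl | ⟨r, hr⟩
    · simp
    · obtain ⟨D, hDC, hrD, hD⟩ := exists_circ_mem C hC r hr
      rw [← sum_sdiff hDC]
      exact (ih (C \ D) (sdiff_ssubset hDC ⟨r, hrD⟩) (hC.sdiff hD.2.1 hDC)
        (fun e he => hok e (mem_sdiff.1 he).1)).add (h D hD (fun e he => hok e (hDC he)))

omit [DecidableEq V] in
lemma potential (l : E' → ℕ∞) (P : Finset E') (F : V → ℕ∞)
    (hF : ∀ e ∈ P, F (b e) ≤ F (a e) + l e ∧ F (a e) ≤ F (b e) + l e) {x y : V} (hx : F x = 0)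
    (h : Relation.ReflTransGen
      (fun u v => ∃ e ∈ P, (a e = u ∧ b e = v) ∨ (a e = v ∧ b e = u)) x y) :
    F y ≤ ∑ e ∈ P, l e := by
  classical
  have key : ∃ M : ℕ∞, F y ≤ M ∧ M ≤ ∑ e ∈ P.filter (fun e => max (F (a e)) (F (b e)) ≤ M), l e := by
    induction h with
    | refl => exact ⟨0, hx.le, zero_le⟩
    | @tail u v _ huv ih =>
      obtain ⟨M, hM1, hM2⟩ := ih
      by_cases hv : F v ≤ M
      · exact ⟨M, hv, hM2⟩
      · push Not at hv
        obtain ⟨e, heP, he⟩ := huv
        have h1 : F v ≤ F u + l e := by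
          rcases he with ⟨rfl, rfl⟩ | ⟨rfl, rfl⟩
          · exact (hF e heP).1
          · exact (hF e heP).2
        have h2 : max (F (a e)) (F (b e)) = F v := by
          rcases he with ⟨rfl, rfl⟩ | ⟨rfl, rfl⟩
          · exact max_eq_right (hM1.trans hv.le)
          · exact max_eq_left (hM1.trans hv.le)
        have h3 : e ∉ P.filter (fun e => max (F (a e)) (F (b e)) ≤ M) := by
          simp only [mem_filter, h2, not_and, not_le]
          exact fun _ => hv
        refine ⟨F v, le_rfl, ?_⟩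
        calc F v ≤ l e + F u := by rwa [add_comm]
          _ ≤ l e + ∑ e ∈ P.filter (fun e => max (F (a e)) (F (b e)) ≤ M), l e := by
            gcongr
            exact hM1.trans hM2
          _ = ∑ e ∈ insert e (P.filter (fun e => max (F (a e)) (F (b e)) ≤ M)), l e :=
            (sum_insert h3).symm
          _ ≤ _ := by
            apply sum_le_sum_of_subset
            intro z hz
            rcases mem_insert.1 hz with rfl | hz
            · exact mem_filter.2 ⟨heP, h2.le⟩
            · exact mem_filter.2 ⟨(mem_filter.1 hz).1, (mem_filter.1 hz).2.trans hv.le⟩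
  obtain ⟨M, h1, h2⟩ := key
  exact h1.trans (h2.trans (sum_le_sum_of_subset (filter_subset _ _)))

variable (a b)

/-- The distance of the frozen statement. -/
noncomputable def dist (ok : E' → Prop) (l : E' → ℕ∞) (x y : V) : ℕ∞ :=
  ⨅ (P : Finset E') (_ : (∀ e ∈ P, ok e) ∧ Relation.ReflTransGen
    (fun u v => ∃ e ∈ P, (a e = u ∧ b e = v) ∨ (a e = v ∧ b e = u)) x y), ∑ e ∈ P, l e

variable (ok : E' → Prop) (l : E' → ℕ∞)

omit [DecidableEq V] [DecidableEq E'] in
lemma dist_self (x : V) : dist a b ok l x x = 0 :=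
  le_antisymm (iInf₂_le_of_le ∅ ⟨by simp, Relation.ReflTransGen.refl⟩ (by simp)) zero_le

omit [DecidableEq V] [DecidableEq E'] in
lemma dist_symm_le (x y : V) : dist a b ok l x y ≤ dist a b ok l y x := by
  refine le_iInf₂ fun P hP => iInf₂_le_of_le P ⟨hP.1, ?_⟩ le_rfl
  obtain ⟨-, h⟩ := hP
  induction h with
  | refl => exact Relation.ReflTransGen.refl
  | tail _ hbc ih =>
    obtain ⟨e, he, h⟩ := hbc
    exact ih.head ⟨e, he, h.symm⟩

omit [DecidableEq V] in
lemma dist_tri (x y z : V) : dist a b ok l x z ≤ dist a b ok l x y + dist a b ok l y z := by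
  unfold dist
  rw [ENat.iInf₂_add]
  refine le_iInf₂ fun P hP => ?_
  rw [ENat.add_iInf₂]
  refine le_iInf₂ fun Q hQ => iInf₂_le_of_le (P ∪ Q) ⟨?_, ?_⟩ ?_
  · intro e he
    rcases mem_union.1 he with h | h
    · exact hP.1 e h
    · exact hQ.1 e h
  · refine Relation.ReflTransGen.trans (Relation.ReflTransGen.mono ?_ _ _ hP.2)
      (Relation.ReflTransGen.mono ?_ _ _ hQ.2)
    · rintro u v ⟨e, he, h⟩
      exact ⟨e, mem_union_left _ he, h⟩
    · rintro u v ⟨e, he, h⟩
      exact ⟨e, mem_union_right _ he, h⟩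
  · rw [← sum_union_inter]
    exact le_self_add

omit [DecidableEq V] [DecidableEq E'] in
lemma dist_edge (e : E') (he : ok e) : dist a b ok l (a e) (b e) ≤ l e :=
  iInf₂_le_of_le {e} ⟨by simpa using he,
    Relation.ReflTransGen.single ⟨e, by simp, Or.inl ⟨rfl, rfl⟩⟩⟩ (by simp)

omit [DecidableEq V] in
lemma le_dist (F : V → ℕ∞)
    (hF : ∀ e, ok e → F (b e) ≤ F (a e) + l e ∧ F (a e) ≤ F (b e) + l e) {x : V} (hx : F x = 0)
    (y : V) : F y ≤ dist a b ok l x y :=
  le_iInf₂ fun P hP => potential l P F (fun e he => hF e (hP.1 e he)) hx hP.2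

omit [DecidableEq V] [DecidableEq E'] in
lemma dist_eq_top [Fintype E'] (hl : ∀ e, l e = 0 ∨ l e = 1 ∨ l e = ⊤) (x y : V)
    (h : (Fintype.card E' : ℕ∞) < dist a b ok l x y) : dist a b ok l x y = ⊤ := by
  refine top_le_iff.1 (le_iInf₂ fun P hP => ?_)
  by_cases hP' : ∃ e ∈ P, l e = ⊤
  · obtain ⟨e, he, h1⟩ := hP'
    exact h1 ▸ single_le_sum (f := l) (fun _ _ => zero_le) he
  · push Not at hP'
    have h1 : ∑ e ∈ P, l e ≤ (Fintype.card E' : ℕ∞) := by
      calc ∑ e ∈ P, l e ≤ ∑ _e ∈ P, (1 : ℕ∞) := sum_le_sum fun e he => by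
            rcases hl e with h | h | h
            · simp [h]
            · simp [h]
            · exact absurd h (hP' e he)
        _ = (P.card : ℕ∞) := by simp
        _ ≤ _ := by exact_mod_cast card_le_univ P
    exact absurd (h.trans_le ((iInf₂_le P hP).trans h1)) (lt_irrefl _)

end Sets

section Lift

variable {V E E' : Type} [DecidableEq V] [Fintype E] [DecidableEq E] [DecidableEq E']
  (s t : E → V) (φ : E' → E)

/-- Incidence number. -/
def inc (e : E) (v : V) : ℤ := (if s e = v then 1 else 0) + (if t e = v then 1 else 0)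

/-- Eulerian integer vectors. -/
def EvZ (x : E → ℤ) : Prop := ∀ v, Even (∑ e, x e * inc s t e v)

/-- Number of copies of `e` in `C`. -/
def cnt (C : Finset E') (e : E) : ℕ := (C.filter (fun x => φ x = e)).card

lemma card_filter_comp (C : Finset E') (f : E → V) (v : V) :
    ((C.filter (fun x => f (φ x) = v)).card : ℤ)
      = ∑ e, (cnt φ C e : ℤ) * (if f e = v then 1 else 0) := by
  rw [card_eq_sum_card_fiberwise (f := φ) (t := univ) (fun _ _ => mem_univ _)]
  push_cast
  refine sum_congr rfl fun e _ => ?_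
  split_ifs with h
  · rw [mul_one, cnt, filter_filter]
    congr 2
    refine filter_congr fun x _ => ⟨fun h' => h'.2, fun h' => ⟨h' ▸ h, h'⟩⟩
  · rw [mul_zero, filter_filter, Nat.cast_eq_zero, card_eq_zero, filter_eq_empty_iff]
    rintro x _ ⟨h1, h2⟩
    exact h (h2 ▸ h1)

lemma ev_iff (C : Finset E') :
    Ev (fun x => s (φ x)) (fun x => t (φ x)) C ↔ EvZ s t (fun e => (cnt φ C e : ℤ)) := by
  refine forall_congr' fun v => ?_
  rw [← Int.even_coe_nat]
  push_cast
  rw [card_filter_comp, card_filter_comp, ← sum_add_distrib]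
  simp only [inc, mul_add]

variable {s t}

lemma EvZ.add {x y : E → ℤ} (hx : EvZ s t x) (hy : EvZ s t y) : EvZ s t (fun e => x e + y e) := by
  intro v
  simp only [add_mul, sum_add_distrib]
  exact (hx v).add (hy v)

lemma EvZ.of_congr {x y : E → ℤ} (hx : EvZ s t x) (h : ∀ e, Even (y e - x e)) : EvZ s t y := by
  intro v
  have : ∑ e, y e * inc s t e v = ∑ e, x e * inc s t e v + ∑ e, (y e - x e) * inc s t e v := by
    rw [← sum_add_distrib]
    exact sum_congr rfl fun e _ => by ring
  rw [this]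
  exact (hx v).add (even_sum _ fun e _ => (h e).mul_right _)

variable (s t)

/-- A demand edge together with a vector of supply that joins its ends. -/
def Term (x : E × (E → ℕ)) : Prop := EvZ s t (fun e => (x.2 e : ℤ) + if e = x.1 then 1 else 0)

/-- The signed vector of a family of terms. -/
def tot (L : Multiset (E × (E → ℕ))) (e : E) : ℤ :=
  (L.map (fun x => (x.2 e : ℤ) - if e = x.1 then 1 else 0)).sum

/-- `p` is a sum of terms and a nonnegative vector. -/
def Rep (p : E → ℤ) : Prop :=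
  ∃ (L : Multiset (E × (E → ℕ))) (σ : E → ℕ), (∀ x ∈ L, Term s t x) ∧ ∀ e, p e = σ e + tot L e

lemma cancel (n : ℕ) : ∀ (L : Multiset (E × (E → ℕ))) (σ : E → ℕ), L.card = n →
    (∀ x ∈ L, Term s t x) → ∃ (L' : Multiset (E × (E → ℕ))) (σ' : E → ℕ),
      (∀ x ∈ L', Term s t x) ∧ (∀ e, (σ e : ℤ) + tot L e = σ' e + tot L' e) ∧
      ∀ x ∈ L', σ' x.1 = 0 ∧ ∀ y ∈ L', y.2 x.1 = 0 := by
  induction n with
  | zero =>
    intro L σ hL _
    rw [Multiset.card_eq_zero] at hL
    subst hL
    exact ⟨0, σ, by simp, fun _ => rfl, by simp⟩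
  | succ n ih =>
    intro L σ hL hT
    by_cases hsep : ∀ x ∈ L, σ x.1 = 0 ∧ ∀ y ∈ L, y.2 x.1 = 0
    · exact ⟨L, σ, hT, fun _ => rfl, hsep⟩
    push Not at hsep
    obtain ⟨x, hx, hx'⟩ := hsep
    obtain ⟨L₁, rfl⟩ := Multiset.exists_cons_of_mem hx
    have hc : L₁.card = n := by simpa using hL
    by_cases h1 : σ x.1 + x.2 x.1 = 0
    · obtain ⟨y, hy, hy'⟩ := hx' (by omega)
      rcases Multiset.mem_cons.1 hy with rfl | hy
      · exact absurd (by omega) hy'
      obtain ⟨L₂, rfl⟩ := Multiset.exists_cons_of_mem hy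
      have hcast : ∀ e, ((y.2 e + x.2 e - if e = x.1 then 1 else 0 : ℕ) : ℤ)
          = y.2 e + x.2 e - if e = x.1 then 1 else 0 := by
        intro e
        split_ifs with h
        · subst h
          omega
        · simp
      obtain ⟨L', σ', h2, h3, h4⟩ := ih
        ((y.1, fun e => y.2 e + x.2 e - if e = x.1 then 1 else 0) ::ₘ L₂) σ (by simpa using hc)
        (by
          intro z hz
          rcases Multiset.mem_cons.1 hz with rfl | hz
          · refine ((hT x (by simp)).add (hT y (by simp))).of_congr fun e => ?_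
            simp only [hcast]
            exact ⟨-(if e = x.1 then 1 else 0), by ring⟩
          · exact hT z (by simp [hz]))
      refine ⟨L', σ', h2, fun e => ?_, h4⟩
      rw [← h3 e]
      simp only [tot, Multiset.map_cons, Multiset.sum_cons, hcast]
      ring
    · have hcast : ∀ e, ((σ e + x.2 e - if e = x.1 then 1 else 0 : ℕ) : ℤ)
          = σ e + x.2 e - if e = x.1 then 1 else 0 := by
        intro e
        split_ifs with h
        · subst h
          omega
        · simp
      obtain ⟨L', σ', h2, h3, h4⟩ := ih L₁ (fun e => σ e + x.2 e - if e = x.1 then 1 else 0) hc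
        (fun z hz => hT z (by simp [hz]))
      refine ⟨L', σ', h2, fun e => ?_, h4⟩
      rw [← h3 e]
      simp only [tot, Multiset.map_cons, Multiset.sum_cons, hcast]
      ring

omit [Fintype E] in
lemma cnt_sdiff {A C : Finset E'} (h : C ⊆ A) (e : E) :
    cnt φ (A \ C) e + cnt φ C e = cnt φ A e := card_filter_sdiff h _

lemma exists_subset_cnt (A : Finset E') (W : E → ℕ) (h : ∀ e, W e ≤ cnt φ A e) :
    ∃ Q ⊆ A, ∀ e, cnt φ Q e = W e := by
  choose f hf hf' using fun e => exists_subset_card_eq (h e)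
  refine ⟨univ.biUnion f, ?_, fun e => ?_⟩
  · intro x hx
    obtain ⟨e, -, he⟩ := mem_biUnion.1 hx
    exact (mem_filter.1 (hf e he)).1
  · rw [← hf' e, cnt]
    congr 1
    ext x
    simp only [mem_filter, mem_biUnion, mem_univ, true_and]
    constructor
    · rintro ⟨⟨e', he'⟩, rfl⟩
      rwa [(mem_filter.1 (hf e' he')).2]
    · exact fun hx => ⟨⟨e, hx⟩, (mem_filter.1 (hf e hx)).2⟩

lemma lift (R : Finset E) (L : Multiset (E × (E → ℕ))) :
    (∀ x ∈ L, Term s t x ∧ x.1 ∈ R ∧ ∀ e ∈ R, x.2 e = 0) → ∀ A : Finset E',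
    (∀ e ∈ R, cnt φ A e = (L.map (fun x => if e = x.1 then 1 else 0)).sum) →
    (∀ e ∉ R, (L.map (fun x => x.2 e)).sum ≤ cnt φ A e) →
    ∃ f : E' → Finset E', (∀ r ∈ A, φ r ∈ R → f r ⊆ A ∧
        Circ (fun x => s (φ x)) (fun x => t (φ x)) (f r) ∧ (f r).filter (fun e => φ e ∈ R) = {r}) ∧
      ∀ r₁ ∈ A, ∀ r₂ ∈ A, φ r₁ ∈ R → φ r₂ ∈ R → r₁ ≠ r₂ → Disjoint (f r₁) (f r₂) := by
  induction L using Multiset.induction_on with
  | empty =>
    intro _ A h1 _
    have : ∀ r ∈ A, φ r ∉ R := by
      intro r hr hR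
      have := h1 _ hR
      simp only [Multiset.map_zero, Multiset.sum_zero, cnt, card_eq_zero,
        filter_eq_empty_iff] at this
      exact this hr rfl
    exact ⟨fun _ => ∅, fun r hr hR => absurd hR (this r hr), fun r hr _ _ hR => absurd hR (this r hr)⟩
  | cons x L ih =>
    intro hL A h1 h2
    obtain ⟨hxT, hxR, hx0⟩ := hL x (by simp)
    simp only [Multiset.map_cons, Multiset.sum_cons] at h1 h2
    obtain ⟨r', hr'⟩ : (A.filter (fun y => φ y = x.1)).Nonempty := by
      rw [← card_pos]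
      have := h1 _ hxR
      simp only [if_true, cnt] at this
      omega
    obtain ⟨hr'A, hr'φ⟩ := mem_filter.1 hr'
    obtain ⟨Q, hQA, hQ⟩ := exists_subset_cnt φ A x.2 (fun e => by
      by_cases he : e ∈ R
      · simp [hx0 e he]
      · have := h2 e he
        omega)
    have hQR : ∀ y ∈ Q, φ y ∉ R := by
      intro y hy hR
      have := hQ (φ y)
      rw [hx0 _ hR, cnt, card_eq_zero, filter_eq_empty_iff] at this
      exact this hy rfl
    have hr'Q : r' ∉ Q := fun h => hQR _ h (hr'φ ▸ hxR)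
    have hcnt : ∀ e, cnt φ (insert r' Q) e = x.2 e + if e = x.1 then 1 else 0 := by
      intro e
      rw [← hQ e, cnt, cnt, filter_insert, hr'φ]
      by_cases h : e = x.1
      · rw [if_pos h.symm, if_pos h, card_insert_of_notMem (fun h' => hr'Q (mem_filter.1 h').1)]
      · rw [if_neg (Ne.symm h), if_neg h, add_zero]
    have hsub : insert r' Q ⊆ A := insert_subset hr'A hQA
    obtain ⟨D, hD, hr'D, hDc⟩ := exists_circ_mem (a := fun x => s (φ x)) (b := fun x => t (φ x))
      (insert r' Q) ((ev_iff s t φ _).2 (by simpa only [hcnt, Nat.cast_add, Nat.cast_ite,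
        Nat.cast_one, Nat.cast_zero] using! hxT)) r' (mem_insert_self _ _)
    obtain ⟨f, hf1, hf2⟩ := ih (fun y hy => hL y (by simp [hy])) (A \ insert r' Q)
      (fun e he => by
        have h3 := cnt_sdiff φ hsub e
        have h4 := h1 e he
        rw [hcnt, hx0 e he] at h3
        omega)
      (fun e he => by
        have h3 := cnt_sdiff φ hsub e
        have h4 := h2 e he
        have h5 : e ≠ x.1 := fun h => he (h ▸ hxR)
        rw [hcnt, if_neg h5] at h3
        omega)
    have hmem : ∀ r ∈ A, φ r ∈ R → r ≠ r' → r ∈ A \ insert r' Q := by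
      intro r hr hR hne
      simp only [mem_sdiff, mem_insert, not_or]
      exact ⟨hr, hne, fun h => hQR r h hR⟩
    have hdisj : ∀ r ∈ A, φ r ∈ R → r ≠ r' → Disjoint D (f r) := by
      intro r hr hR hne
      exact (disjoint_sdiff.mono hD (hf1 r (hmem r hr hR hne) hR).1)
    refine ⟨Function.update f r' D, fun r hr hR => ?_, fun r₁ h₁ r₂ h₂ hR₁ hR₂ hne => ?_⟩
    · by_cases h : r = r'
      · subst h
        rw [Function.update_self]
        refine ⟨hD.trans hsub, hDc, ?_⟩
        ext y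
        simp only [mem_filter, mem_singleton]
        constructor
        · rintro ⟨hy, hyR⟩
          rcases mem_insert.1 (hD hy) with h | h
          · exact h
          · exact absurd hyR (hQR y h)
        · rintro rfl
          exact ⟨hr'D, hR⟩
      · rw [Function.update_of_ne h]
        obtain ⟨h3, h4⟩ := hf1 r (hmem r hr hR h) hR
        exact ⟨h3.trans sdiff_subset, h4⟩
    · by_cases e₁ : r₁ = r'
      · subst e₁
        rw [Function.update_self, Function.update_of_ne hne.symm]
        exact hdisj r₂ h₂ hR₂ hne.symm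
      · by_cases e₂ : r₂ = r'
        · subst e₂
          rw [Function.update_self, Function.update_of_ne e₁]
          exact (hdisj r₁ h₁ hR₁ e₁).symm
        · rw [Function.update_of_ne e₁, Function.update_of_ne e₂]
          exact hf2 r₁ (hmem r₁ h₁ hR₁ e₁) r₂ (hmem r₂ h₂ hR₂ e₂) hR₁ hR₂ hne

omit [DecidableEq V] [Fintype E] in
lemma tot_eq (L : Multiset (E × (E → ℕ))) (e : E) : tot L e =
    ((L.map (fun x => x.2 e)).sum : ℕ) - ((L.map (fun x => if e = x.1 then 1 else 0)).sum : ℕ) := by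
  induction L using Multiset.induction_on with
  | empty => simp [tot]
  | cons x L ih =>
    simp only [tot, Multiset.map_cons, Multiset.sum_cons] at ih ⊢
    rw [ih]
    push_cast
    ring

/-- The signed multiplicity vector. -/
def sgn (R : Finset E) (C : Finset E') (e : E) : ℤ :=
  if e ∈ R then -(cnt φ C e : ℤ) else cnt φ C e

theorem packing_of_rep [Fintype E'] (R : Finset E) (hφ : Function.Surjective φ)
    (h : Rep s t (sgn φ R univ)) :
    ∃ f : E' → Finset E', (∀ r, φ r ∈ R →
        Circ (fun x => s (φ x)) (fun x => t (φ x)) (f r) ∧ (f r).filter (fun e => φ e ∈ R) = {r}) ∧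
      ∀ r₁ r₂, φ r₁ ∈ R → φ r₂ ∈ R → r₁ ≠ r₂ → Disjoint (f r₁) (f r₂) := by
  obtain ⟨L₀, σ₀, hT₀, hp₀⟩ := h
  obtain ⟨L, σ, hT, hp, hsep⟩ := cancel s t _ L₀ σ₀ rfl hT₀
  have hp' : ∀ e, sgn φ R univ e = σ e + tot L e := fun e => (hp₀ e).trans (hp e)
  have hpos : ∀ e, 0 < cnt φ univ e := fun e => by
    obtain ⟨x, hx⟩ := hφ e
    exact card_pos.2 ⟨x, mem_filter.2 ⟨mem_univ _, hx⟩⟩
  have hz : ∀ x ∈ L, (L.map (fun y => y.2 x.1)).sum = 0 := fun x hx =>
    Multiset.sum_eq_zero fun n hn => by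
      obtain ⟨y, hy, rfl⟩ := Multiset.mem_map.1 hn
      exact (hsep x hx).2 y hy
  have hR : ∀ x ∈ L, x.1 ∈ R := by
    intro x hx
    by_contra hn
    have h1 := hp' x.1
    have h2 := hpos x.1
    rw [tot_eq, hz x hx, (hsep x hx).1, sgn, if_neg hn] at h1
    omega
  have hex : ∀ e ∈ R, ∃ x ∈ L, x.1 = e := by
    intro e he
    by_contra hn
    push Not at hn
    have h1 := hp' e
    have h2 := hpos e
    have h3 : (L.map (fun x => if e = x.1 then 1 else 0)).sum = 0 :=
      Multiset.sum_eq_zero fun n hn' => by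
        obtain ⟨y, hy, rfl⟩ := Multiset.mem_map.1 hn'
        exact if_neg (hn y hy).symm
    rw [tot_eq, h3, sgn, if_pos he] at h1
    omega
  obtain ⟨f, hf1, hf2⟩ := lift s t φ R L
    (fun x hx => ⟨hT x hx, hR x hx, fun e he => by
      obtain ⟨y, hy, rfl⟩ := hex e he
      exact (hsep y hy).2 x hx⟩) univ
    (fun e he => by
      obtain ⟨y, hy, rfl⟩ := hex e he
      have h1 := hp' y.1
      rw [tot_eq, hz y hy, (hsep y hy).1, sgn, if_pos he] at h1
      omega)
    (fun e he => by
      have h1 := hp' e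
      have h3 : (L.map (fun x => if e = x.1 then 1 else 0)).sum = 0 :=
        Multiset.sum_eq_zero fun n hn' => by
          obtain ⟨y, hy, rfl⟩ := Multiset.mem_map.1 hn'
          exact if_neg (fun h : e = y.1 => he (h ▸ hR y hy))
      rw [tot_eq, h3, sgn, if_neg he] at h1
      omega)
  exact ⟨f, fun r hr => (hf1 r (mem_univ _) hr).2,
    fun r₁ r₂ => hf2 r₁ (mem_univ _) r₂ (mem_univ _)⟩

variable {s t}

lemma Rep.add {p q : E → ℤ} (hp : Rep s t p) (hq : Rep s t q) : Rep s t (fun e => p e + q e) := by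
  obtain ⟨L, σ, h1, h2⟩ := hp
  obtain ⟨L', σ', h1', h2'⟩ := hq
  refine ⟨L + L', fun e => σ e + σ' e, fun x hx => ?_, fun e => ?_⟩
  · rcases Multiset.mem_add.1 hx with h | h
    · exact h1 x h
    · exact h1' x h
  · simp only [h2, h2', tot, Multiset.map_add, Multiset.sum_add]
    push_cast
    ring

lemma rep_nonneg (σ : E → ℕ) : Rep s t (fun e => (σ e : ℤ)) :=
  ⟨0, σ, by simp, fun e => by simp [tot]⟩

lemma rep_term (x : E × (E → ℕ)) (hx : Term s t x) :
    Rep s t (fun e => (x.2 e : ℤ) - if e = x.1 then 1 else 0) :=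
  ⟨{x}, fun _ => 0, by simpa using hx, fun e => by simp [tot]⟩

lemma Rep.nsmul {p : E → ℤ} (hp : Rep s t p) (n : ℕ) : Rep s t (fun e => n * p e) := by
  induction n with
  | zero => simpa using rep_nonneg (s := s) (t := t) (fun _ => 0)
  | succ n ih =>
    have := ih.add hp
    simpa only [Nat.cast_succ, add_mul, one_mul] using this

lemma rep_sum {ι : Type} (S : Finset ι) (p : ι → E → ℤ) (hp : ∀ i ∈ S, Rep s t (p i)) :
    Rep s t (fun e => ∑ i ∈ S, p i e) := by
  classical
  induction S using Finset.induction_on with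
  | empty => simpa using rep_nonneg (s := s) (t := t) (fun _ => 0)
  | insert i S hi ih =>
    have := (hp i (by simp)).add (ih fun j hj => hp j (by simp [hj]))
    simpa only [sum_insert hi] using this

end Lift

section Frac

variable {V E E' : Type} [DecidableEq V] [DecidableEq E] [Fintype E'] [DecidableEq E']
  (φ : E' → E)

/-- An integer packing gives a fractional packing. -/
theorem frac_of_packing (R : Finset E) (c : Finset E' → Prop) (f : E' → Finset E')
    (h1 : ∀ r, φ r ∈ R → c (f r) ∧ (f r).filter (fun e => φ e ∈ R) = {r})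
    (h2 : ∀ r₁ r₂, φ r₁ ∈ R → φ r₂ ∈ R → r₁ ≠ r₂ → Disjoint (f r₁) (f r₂)) :
    ∃ w : Finset E' → ℝ, (∀ C, 0 ≤ w C) ∧
      (∀ C, w C ≠ 0 → c C ∧ (C.filter (fun e => φ e ∈ R)).card = 1) ∧
      (∀ e, φ e ∈ R → (∑ C : Finset E', if e ∈ C then w C else 0) = 1) ∧
      (∀ e, φ e ∉ R → (∑ C : Finset E', if e ∈ C then w C else 0) ≤ 1) := by
  classical
  have hmem : ∀ r, φ r ∈ R → r ∈ f r := fun r hr => by
    have : r ∈ (f r).filter (fun e => φ e ∈ R) := by rw [(h1 r hr).2]; simp
    exact (mem_filter.1 this).1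
  have hsum : ∀ e, (∑ C : Finset E', if e ∈ C then
      (if ∃ r, φ r ∈ R ∧ f r = C then (1 : ℝ) else 0) else 0)
      = ((univ.filter (fun C => e ∈ C ∧ ∃ r, φ r ∈ R ∧ f r = C)).card : ℝ) := by
    intro e
    rw [card_filter]
    push_cast
    refine sum_congr rfl fun C _ => ?_
    by_cases h : e ∈ C <;> simp [h]
  have hle : ∀ e, (univ.filter (fun C => e ∈ C ∧ ∃ r, φ r ∈ R ∧ f r = C)).card ≤ 1 := by
    intro e
    rw [card_le_one]
    intro C hC D hD
    obtain ⟨-, heC, r₁, hr₁, rfl⟩ := mem_filter.1 hC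
    obtain ⟨-, heD, r₂, hr₂, rfl⟩ := mem_filter.1 hD
    by_contra hne
    exact disjoint_left.1 (h2 r₁ r₂ hr₁ hr₂ (fun h => hne (congrArg f h))) heC heD
  refine ⟨fun C => if ∃ r, φ r ∈ R ∧ f r = C then 1 else 0, fun C => ?_, fun C hC => ?_,
    fun e he => ?_, fun e _ => ?_⟩
  · dsimp only
    split_ifs <;> norm_num
  · have : ∃ r, φ r ∈ R ∧ f r = C := by
      by_contra h
      exact hC (if_neg h)
    obtain ⟨r, hr, rfl⟩ := this
    exact ⟨(h1 r hr).1, by rw [(h1 r hr).2, card_singleton]⟩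
  · rw [hsum]
    have h3 : 0 < (univ.filter (fun C => e ∈ C ∧ ∃ r, φ r ∈ R ∧ f r = C)).card :=
      card_pos.2 ⟨f e, mem_filter.2 ⟨mem_univ _, hmem e he, e, he, rfl⟩⟩
    have h4 := hle e
    have : (univ.filter (fun C => e ∈ C ∧ ∃ r, φ r ∈ R ∧ f r = C)).card = 1 := by omega
    rw [this, Nat.cast_one]
  · rw [hsum]
    exact_mod_cast hle e

lemma sum_cnt (w : Finset E' → ℝ) (e : E) :
    ∑ C : Finset E', w C * (cnt φ C e : ℝ)
      = ∑ x ∈ univ.filter (fun x => φ x = e), ∑ C : Finset E', if x ∈ C then w C else 0 := by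
  rw [sum_comm]
  refine sum_congr rfl fun C _ => ?_
  rw [← sum_filter, sum_const, nsmul_eq_mul, mul_comm, cnt]
  congr 3
  ext x
  simp [and_comm]

end Frac

end Pool.Agent.P.MP_af70e5_co
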