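import Pool.Agent.P.MP_af70e5_co.General

/-!
Parity of the total distance in an Eulerian graph.
-/

open Finset

set_option linter.unusedSectionVars false

namespace Pool.Agent.P.MP_af70e5_co

variable {V E' : Type} [Fintype V] [DecidableEq V] [DecidableEq E'] (a b : E' → V)

/-- Degree of `v` in `C`, as an integer sum. -/
def deg (C : Finset E') (v : V) : ℤ := ∑ e ∈ C, inc a b e v

lemma ev_iff_deg (C : Finset E') : Ev a b C ↔ ∀ v, Even (deg a b C v) := by
  refine forall_congr' fun v => ?_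
  rw [← Int.even_coe_nat]
  simp only [deg, inc, sum_add_distrib, card_filter]
  push_cast
  rfl

lemma sum_symmDiff {M : Type} [AddCommMonoid M] (A B : Finset E') (f : E' → M) :
    ∑ e ∈ A, f e + ∑ e ∈ B, f e
      = ∑ e ∈ (A \ B) ∪ (B \ A), f e + (∑ e ∈ A ∩ B, f e + ∑ e ∈ A ∩ B, f e) := by
  have h1 : ∑ e ∈ A, f e = ∑ e ∈ A \ B, f e + ∑ e ∈ A ∩ B, f e := by
    rw [← sum_union (disjoint_sdiff_inter A B), sdiff_union_inter]
  have h2 : ∑ e ∈ B, f e = ∑ e ∈ B \ A, f e + ∑ e ∈ A ∩ B, f e := by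
    rw [inter_comm, ← sum_union (disjoint_sdiff_inter B A), sdiff_union_inter]
  rw [sum_union (disjoint_sdiff_sdiff), h1, h2]
  abel

/-- `J` has odd degree exactly at `x` and `y`. -/
def Join (J : Finset E') (x y : V) : Prop :=
  ∀ v, Even (deg a b J v + ((if x = v then 1 else 0) + (if y = v then 1 else 0)))

lemma exists_join (P : Finset E') {x y : V} (h : Relation.ReflTransGen
    (fun u v => ∃ e ∈ P, (a e = u ∧ b e = v) ∨ (a e = v ∧ b e = u)) x y) :
    ∃ J ⊆ P, Join a b J x y := by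
  induction h with
  | refl => exact ⟨∅, empty_subset _, fun v => ⟨if x = v then 1 else 0, by simp [deg]⟩⟩
  | @tail u w _ huw ih =>
    obtain ⟨J, hJ, hj⟩ := ih
    obtain ⟨e, heP, he⟩ := huw
    refine ⟨(J \ {e}) ∪ ({e} \ J), union_subset (sdiff_subset.trans hJ)
      (sdiff_subset.trans (singleton_subset_iff.2 heP)), fun v => ?_⟩
    have h1 := sum_symmDiff J {e} (fun e => inc a b e v)
    have h2 : inc a b e v = (if u = v then 1 else 0) + (if w = v then 1 else 0) := by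
      rcases he with ⟨rfl, rfl⟩ | ⟨rfl, rfl⟩
      · rfl
      · exact add_comm _ _
    obtain ⟨z, hz⟩ := hj v
    rw [sum_singleton, h2] at h1
    unfold deg at hz ⊢
    exact ⟨z + (if w = v then 1 else 0) - ∑ e ∈ J ∩ {e}, inc a b e v, by linear_combination hz - h1⟩

lemma conn_of_join (J : Finset E') {x y : V} (h : Join a b J x y) : Relation.ReflTransGen
    (fun u v => ∃ e ∈ J, (a e = u ∧ b e = v) ∨ (a e = v ∧ b e = u)) x y := by
  classical
  by_contra hcon
  let S : Finset V := univ.filter (fun v => Relation.ReflTransGen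
    (fun u v => ∃ e ∈ J, (a e = u ∧ b e = v) ∨ (a e = v ∧ b e = u)) x v)
  have hx : x ∈ S := mem_filter.2 ⟨mem_univ _, Relation.ReflTransGen.refl⟩
  have hy : y ∉ S := fun h => hcon (mem_filter.1 h).2
  have h1 : Even (∑ v ∈ S, (deg a b J v +
      ((if x = v then 1 else 0) + (if y = v then 1 else 0)))) := even_sum _ fun v _ => h v
  have h2 : Even (∑ v ∈ S, deg a b J v) := by
    unfold deg
    rw [sum_comm]
    refine even_sum _ fun e he => ?_
    have h3 : a e ∈ S ↔ b e ∈ S := by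
      simp only [S, mem_filter, mem_univ, true_and]
      exact ⟨fun h => h.tail ⟨e, he, Or.inl ⟨rfl, rfl⟩⟩, fun h => h.tail ⟨e, he, Or.inr ⟨rfl, rfl⟩⟩⟩
    simp only [inc, sum_add_distrib, sum_ite_eq, h3]
    exact ⟨_, rfl⟩
  simp only [sum_add_distrib, sum_ite_eq, if_pos hx, if_neg hy, add_zero] at h1
  exact (Int.even_add_one.1 h1) h2

variable (ok : E' → Prop) (l : E' → ℕ∞)

lemma exists_opt_join [Fintype E'] {x y : V} (h : dist a b ok l x y ≠ ⊤) :
    ∃ J, (∀ e ∈ J, ok e) ∧ Join a b J x y ∧ ∑ e ∈ J, l e = dist a b ok l x y := by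
  classical
  let T : Finset (Finset E') := univ.filter (fun P => (∀ e ∈ P, ok e) ∧ Relation.ReflTransGen
    (fun u v => ∃ e ∈ P, (a e = u ∧ b e = v) ∨ (a e = v ∧ b e = u)) x y)
  have hT : T.Nonempty := by
    by_contra hn
    apply h
    refine top_le_iff.1 (le_iInf₂ fun P hP => absurd ⟨P, ?_⟩ hn)
    exact mem_filter.2 ⟨mem_univ _, hP⟩
  obtain ⟨P, hP, hmin⟩ := exists_min_image T (fun P => ∑ e ∈ P, l e) hT
  obtain ⟨-, hP1, hP2⟩ := mem_filter.1 hP
  obtain ⟨J, hJ, hj⟩ := exists_join a b P hP2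
  refine ⟨J, fun e he => hP1 e (hJ he), hj, le_antisymm ?_ ?_⟩
  · exact (sum_le_sum_of_subset hJ).trans
      (le_iInf₂ fun Q hQ => hmin Q (mem_filter.2 ⟨mem_univ _, hQ⟩))
  · exact iInf₂_le J ⟨fun e he => hP1 e (hJ he), conn_of_join a b J hj⟩

theorem even_total [Fintype E']
    (hl : ∀ C, Circ a b C → (∀ e ∈ C, ok e) → Even (∑ e ∈ C, l e))
    (hfin : ∀ e, dist a b ok l (a e) (b e) ≠ ⊤) (hE : Ev a b univ) :
    Even (∑ e, dist a b ok l (a e) (b e)) := by
  have key : ∀ X : Finset E', ∃ K : Finset E', (∀ e ∈ K, ok e) ∧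
      (∀ v, Even (deg a b K v + deg a b X v)) ∧
      ∃ z, ∑ e ∈ X, dist a b ok l (a e) (b e) = ∑ e ∈ K, l e + (z + z) := by
    intro X
    induction X using Finset.induction_on with
    | empty => exact ⟨∅, by simp, fun v => ⟨_, rfl⟩, 0, by simp⟩
    | insert x X hx ih =>
      obtain ⟨K, h1, h2, z, h3⟩ := ih
      obtain ⟨J, g1, g2, g3⟩ := exists_opt_join a b ok l (hfin x)
      refine ⟨(K \ J) ∪ (J \ K), fun e he => ?_, fun v => ?_, z + ∑ e ∈ K ∩ J, l e, ?_⟩
      · rcases mem_union.1 he with h | h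
        · exact h1 e (mem_sdiff.1 h).1
        · exact g1 e (mem_sdiff.1 h).1
      · have e1 := sum_symmDiff K J (fun e => inc a b e v)
        obtain ⟨y₁, hy₁⟩ := h2 v
        obtain ⟨y₂, hy₂⟩ := g2 v
        unfold deg at hy₁ hy₂ ⊢
        rw [sum_insert hx]
        exact ⟨y₁ + y₂ - ∑ e ∈ K ∩ J, inc a b e v, by
          unfold inc at e1 hy₁ hy₂ ⊢
          linear_combination hy₁ + hy₂ - e1⟩
      · rw [sum_insert hx, h3, ← g3, ← add_assoc, add_comm (∑ e ∈ J, l e), sum_symmDiff K J l]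
        abel
  obtain ⟨K, h1, h2, z, h3⟩ := key univ
  rw [h3]
  refine (even_sum_of_circ l ok hl K ((ev_iff_deg a b K).2 fun v => ?_) h1).add ⟨z, rfl⟩
  exact (Int.even_add.1 (h2 v)).2 ((ev_iff_deg a b univ).1 hE v)

end Pool.Agent.P.MP_af70e5_co
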