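import Pool.Agent.P.MP_af70e5_co.Cone
import Pool.Agent.P.MP_af70e5_co.Parity

/-!
The Eulerian extension in which the distance inequalities hold but no packing exists.
-/

open Finset

namespace Pool.Agent.P.MP_af70e5_co

/-- The nineteen edges of the extension. -/
def φ₀ : Fin 19 → Fin 14 := ![0, 1, 2, 2, 3, 3, 4, 5, 5, 6, 7, 8, 9, 10, 10, 11, 12, 13, 13]

/-- The demand edges. -/
def R₀ : Finset (Fin 14) := {10, 11, 12, 13}

lemma surj₀ : Function.Surjective φ₀ := by decide +kernel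

lemma euler₀ : Ev (fun x => sv (φ₀ x)) (fun x => tv (φ₀ x)) univ := by
  unfold Ev
  decide +kernel

lemma dm_neg : ∑ e, dm e * sgn φ₀ R₀ univ e = -2 := by decide +kernel

theorem no_packing : ¬ ∃ f : Fin 19 → Finset (Fin 19), (∀ r, φ₀ r ∈ R₀ →
      Circ (fun x => sv (φ₀ x)) (fun x => tv (φ₀ x)) (f r) ∧
        (f r).filter (fun e => φ₀ e ∈ R₀) = {r}) ∧
    ∀ r₁ r₂, φ₀ r₁ ∈ R₀ → φ₀ r₂ ∈ R₀ → r₁ ≠ r₂ → Disjoint (f r₁) (f r₂) := by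
  rintro ⟨f, h1, h2⟩
  obtain ⟨w, g0, g1, g2, g3⟩ := frac_of_packing φ₀ R₀ _ f h1 h2
  have h3 := (inCone_of_frac φ₀ R₀ w g0 g1 g2 g3).dm_nonneg
  have h4 : ((∑ e, dm e * sgn φ₀ R₀ univ e : ℤ) : ℝ) = ((-2 : ℤ) : ℝ) := by rw [dm_neg]
  push_cast at h4
  linarith

lemma sum_dem {M : Type} [AddCommMonoid M] (F : Fin 7 → Fin 7 → M) :
    ∑ r ∈ univ.filter (fun e => φ₀ e ∈ R₀), F (sv (φ₀ r)) (tv (φ₀ r))
      = F 0 1 + F 0 1 + F 1 6 + F 2 4 + F 3 5 + F 3 5 := by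
  have : univ.filter (fun e => φ₀ e ∈ R₀) = {13, 14, 15, 16, 17, 18} := by decide +kernel
  rw [this, sum_insert (by decide), sum_insert (by decide), sum_insert (by decide),
    sum_insert (by decide), sum_insert (by decide), sum_singleton]
  simp only [add_assoc]
  rfl

lemma sum_sup {M : Type} [AddCommMonoid M] (F : Fin 7 → Fin 7 → M) :
    ∑ r ∈ univ.filter (fun e => φ₀ e ∉ R₀), F (sv (φ₀ r)) (tv (φ₀ r))
      = F 0 3 + F 0 5 + F 1 2 + F 1 2 + F 1 3 + F 1 3 + F 1 4 + F 2 5 + F 2 5 + F 2 6 + F 3 6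
        + F 4 5 + F 4 6 := by
  have : univ.filter (fun e => φ₀ e ∉ R₀) = {0, 1, 2, 3, 4, 5, 6, 7, 8, 9, 10, 11, 12} := by
    decide +kernel
  rw [this, sum_insert (by decide), sum_insert (by decide), sum_insert (by decide),
    sum_insert (by decide), sum_insert (by decide), sum_insert (by decide),
    sum_insert (by decide), sum_insert (by decide), sum_insert (by decide),
    sum_insert (by decide), sum_insert (by decide), sum_insert (by decide), sum_singleton]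
  simp only [add_assoc]
  rfl

lemma edge_cases : ∀ e : Fin 19, φ₀ e ∉ R₀ → (sv (φ₀ e) = 0 ∧ tv (φ₀ e) = 3) ∨
    (sv (φ₀ e) = 0 ∧ tv (φ₀ e) = 5) ∨ (sv (φ₀ e) ≠ 0 ∧ tv (φ₀ e) ≠ 0) := by decide +kernel

lemma arith (n : Fin 7 → Fin 7 → ℕ) (hs : ∀ x y, n x y = n y x)
    (ht : ∀ x y z, n x z ≤ n x y + n y z)
    (hpar : Even ((n 0 1 + n 0 1 + n 1 6 + n 2 4 + n 3 5 + n 3 5)
      + (n 0 3 + n 0 5 + n 1 2 + n 1 2 + n 1 3 + n 1 3 + n 1 4 + n 2 5 + n 2 5 + n 2 6 + n 3 6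
        + n 4 5 + n 4 6)))
    (h : n 0 3 ≤ 1 ∨ n 0 5 + n 3 5 ≤ n 0 3) :
    n 0 1 + n 0 1 + n 1 6 + n 2 4 + n 3 5 + n 3 5 ≤
      n 0 3 + n 0 5 + n 1 2 + n 1 2 + n 1 3 + n 1 3 + n 1 4 + n 2 5 + n 2 5 + n 2 6 + n 3 6
        + n 4 5 + n 4 6 := by
  have a1 : n 0 1 ≤ n 0 3 + n 1 3 := by rw [hs 1 3]; exact ht _ _ _
  have b1 : n 1 5 ≤ n 1 2 + n 2 5 := ht _ _ _
  have b2 : n 1 5 ≤ n 1 4 + n 4 5 := ht _ _ _
  have b3 : n 6 5 ≤ n 2 6 + n 2 5 := by rw [hs 2 6]; exact ht _ _ _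
  have b4 : n 6 5 ≤ n 4 6 + n 4 5 := by rw [hs 4 6]; exact ht _ _ _
  have a2 : n 0 1 ≤ n 0 5 + n 1 5 := by rw [hs 1 5]; exact ht _ _ _
  have c1 : n 1 6 ≤ n 1 3 + n 3 6 := ht _ _ _
  have c2 : n 1 6 ≤ n 1 2 + n 2 6 := ht _ _ _
  have c3 : n 1 6 ≤ n 1 4 + n 4 6 := ht _ _ _
  have d1 : n 2 4 ≤ n 1 2 + n 1 4 := by rw [hs 1 2]; exact ht _ _ _
  have d2 : n 2 4 ≤ n 2 5 + n 4 5 := by rw [hs 4 5]; exact ht _ _ _
  have d3 : n 2 4 ≤ n 2 6 + n 4 6 := by rw [hs 4 6]; exact ht _ _ _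
  have e1 : n 3 5 ≤ n 0 3 + n 0 5 := by rw [hs 0 3]; exact ht _ _ _
  have e2 : n 3 5 ≤ n 1 3 + n 1 5 := by rw [hs 1 3]; exact ht _ _ _
  have e3 : n 3 5 ≤ n 3 6 + n 6 5 := ht _ _ _
  rcases h with h | h
  · have key : n 0 1 + n 0 1 + n 1 6 + n 2 4 + n 3 5 + n 3 5 ≤
      n 0 3 + n 0 5 + n 1 2 + n 1 2 + n 1 3 + n 1 3 + n 1 4 + n 2 5 + n 2 5 + n 2 6 + n 3 6
        + n 4 5 + n 4 6 + n 0 3 := by linarith
    obtain ⟨z, hz⟩ := hpar
    clear a1 a2 b1 b2 b3 b4 c1 c2 c3 d1 d2 d3 e1 e2 e3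
    omega
  · linarith

theorem dist_ineq (l : Fin 19 → ℕ∞) (hl : ∀ e, l e = 0 ∨ l e = 1 ∨ l e = ⊤)
    (hev : ∀ C, Circ (fun x => sv (φ₀ x)) (fun x => tv (φ₀ x)) C → (∀ e ∈ C, φ₀ e ∉ R₀) →
      Even (∑ e ∈ C, l e)) :
    ∑ r ∈ univ.filter (fun e => φ₀ e ∈ R₀),
        dist (fun x => sv (φ₀ x)) (fun x => tv (φ₀ x)) (fun x => φ₀ x ∉ R₀) l (sv (φ₀ r)) (tv (φ₀ r))
      ≤ ∑ r ∈ univ.filter (fun e => φ₀ e ∉ R₀),
        dist (fun x => sv (φ₀ x)) (fun x => tv (φ₀ x)) (fun x => φ₀ x ∉ R₀) l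
          (sv (φ₀ r)) (tv (φ₀ r)) := by
  set D := dist (fun x => sv (φ₀ x)) (fun x => tv (φ₀ x)) (fun x => φ₀ x ∉ R₀) l with hD
  have hs : ∀ x y, D x y = D y x := fun x y =>
    le_antisymm (dist_symm_le _ _ _ _ x y) (dist_symm_le _ _ _ _ y x)
  have ht : ∀ x y z, D x z ≤ D x y + D y z := dist_tri _ _ _ _
  have he : ∀ e, φ₀ e ∉ R₀ → D (sv (φ₀ e)) (tv (φ₀ e)) ≤ l e := dist_edge _ _ _ _
  have h0 : ∀ x, D x x = 0 := dist_self _ _ _ _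
  by_cases htop : ∑ r ∈ univ.filter (fun e => φ₀ e ∉ R₀), D (sv (φ₀ r)) (tv (φ₀ r)) = ⊤
  · rw [htop]
    exact le_top
  have htop' := htop
  rw [sum_sup D] at htop'
  simp only [ENat.add_eq_top, not_or] at htop'
  obtain ⟨⟨⟨⟨⟨⟨⟨⟨⟨⟨⟨⟨f03, f05⟩, f12⟩, -⟩, f13⟩, -⟩, f14⟩, f25⟩, -⟩, f26⟩, -⟩, -⟩, -⟩ := htop'
  have hadd : ∀ x y z, D x y ≠ ⊤ → D y z ≠ ⊤ → D x z ≠ ⊤ := fun x y z h1 h2 =>
    ne_top_of_le_ne_top (by simp [h1, h2]) (ht x y z)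
  have f1 : ∀ x, D 1 x ≠ ⊤ := by
    intro x
    fin_cases x
    · exact hadd 1 3 0 f13 (hs 0 3 ▸ f03)
    · exact ne_top_of_le_ne_top (by simp) (h0 1).le
    · exact f12
    · exact f13
    · exact f14
    · exact hadd 1 2 5 f12 f25
    · exact hadd 1 2 6 f12 f26
  have hfin : ∀ x y, D x y ≠ ⊤ := fun x y => hadd x 1 y (hs 1 x ▸ f1 x) (f1 y)
  have hpar := even_total _ _ _ l hev (fun e => hfin _ _) euler₀
  rw [← hD, ← sum_filter_add_sum_filter_not univ (fun e => φ₀ e ∈ R₀), sum_dem D, sum_sup D] at hpar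
  have hcase : D 0 3 ≤ 1 ∨ D 0 5 + D 3 5 ≤ D 0 3 := by
    by_cases h : D 0 3 ≤ 1
    · exact Or.inl h
    right
    have h1 := le_dist (fun x => sv (φ₀ x)) (fun x => tv (φ₀ x)) (fun x => φ₀ x ∉ R₀) l
      (fun v => if v = 0 then D 0 5 + D 3 5 else D 3 v) (fun e hR => by
        have h2 := he e hR
        rcases edge_cases e hR with ⟨h3, h4⟩ | ⟨h3, h4⟩ | ⟨h3, h4⟩
        · rw [h3, h4] at h2
          have h5 : l e = ⊤ := by
            rcases hl e with h5 | h5 | h5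
            · exact absurd (h2.trans (by simp [h5])) h
            · exact absurd (h2.trans h5.le) h
            · exact h5
          simp [h5]
        · rw [h3, h4] at h2
          simp only [h3, h4, if_true, if_neg (by decide : (5 : Fin 7) ≠ 0)]
          refine ⟨le_add_self.trans le_self_add, ?_⟩
          rw [add_comm]
          gcongr
        · simp only [if_neg h3, if_neg h4]
          refine ⟨(ht 3 (sv (φ₀ e)) _).trans (by gcongr), (ht 3 (tv (φ₀ e)) _).trans ?_⟩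
          rw [hs (tv (φ₀ e))]
          gcongr) (x := 3) (by simp [h0]) 0
    rw [if_pos rfl, ← hD, hs 3 0] at h1
    exact h1
  rw [sum_dem D, sum_sup D]
  choose n hn using fun x y => ENat.ne_top_iff_exists.1 (hfin x y)
  simp only [← hn] at hs ht hpar hcase ⊢
  refine mod_cast arith n (fun x y => mod_cast hs x y) (fun x y z => mod_cast ht x y z) ?_
    (mod_cast hcase)
  obtain ⟨z, hz⟩ := hpar
  have hzt : z ≠ ⊤ := by
    rintro rfl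
    rw [top_add] at hz
    exact absurd hz (mod_cast ENat.natCast_ne_top _)
  obtain ⟨y, rfl⟩ := ENat.ne_top_iff_exists.1 hzt
  exact ⟨y, mod_cast hz⟩

end Pool.Agent.P.MP_af70e5_co
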