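import Pool.Agent.P.MP_af70e5_co.Inst

/-!
The routing property when edges may also be deleted.
-/

open Finset

namespace Pool.Agent.P.MP_af70e5_co

theorem packing_of_rep0 {V E E' : Type} [DecidableEq V] [DecidableEq E] [Fintype E]
    [DecidableEq E'] [Fintype E'] (s t : E → V) (φ : E' → E) (R : Finset E)
    (h : Rep s t (sgn φ R univ)) :
    ∃ f : E' → Finset E', (∀ r, φ r ∈ R →
        Circ (fun x => s (φ x)) (fun x => t (φ x)) (f r) ∧ (f r).filter (fun e => φ e ∈ R) = {r}) ∧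
      ∀ r₁ r₂, φ r₁ ∈ R → φ r₂ ∈ R → r₁ ≠ r₂ → Disjoint (f r₁) (f r₂) := by
  obtain ⟨L₀, σ₀, hT₀, hp₀⟩ := h
  obtain ⟨L, σ, hT, hp, hsep⟩ := cancel s t _ L₀ σ₀ rfl hT₀
  have hp' : ∀ e, sgn φ R univ e = σ e + tot L e := fun e => (hp₀ e).trans (hp e)
  have hz : ∀ x ∈ L, (L.map (fun y => y.2 x.1)).sum = 0 := fun x hx =>
    Multiset.sum_eq_zero fun n hn => by
      obtain ⟨y, hy, rfl⟩ := Multiset.mem_map.1 hn
      exact (hsep x hx).2 y hy
  have hR : ∀ x ∈ L, x.1 ∈ R := by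
    intro x hx
    by_contra hn
    have h1 := hp' x.1
    have h2 : (if x.1 = x.1 then 1 else 0) ≤ (L.map (fun y => if x.1 = y.1 then 1 else 0)).sum :=
      Multiset.single_le_sum (fun _ _ => Nat.zero_le _) _ (Multiset.mem_map_of_mem _ hx)
    rw [if_pos rfl] at h2
    rw [tot_eq, hz x hx, (hsep x hx).1, sgn, if_neg hn] at h1
    omega
  have hno : ∀ e, (∀ y ∈ L, y.1 ≠ e) → (L.map (fun x => if e = x.1 then 1 else 0)).sum = 0 :=
    fun e hn => Multiset.sum_eq_zero fun n hn' => by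
      obtain ⟨y, hy, rfl⟩ := Multiset.mem_map.1 hn'
      exact if_neg (hn y hy).symm
  obtain ⟨f, hf1, hf2⟩ := lift s t φ R L
    (fun x hx => ⟨hT x hx, hR x hx, fun e he => by
      by_cases hex : ∃ y ∈ L, y.1 = e
      · obtain ⟨y, hy, rfl⟩ := hex
        exact (hsep y hy).2 x hx
      · push Not at hex
        have h1 := hp' e
        have h2 : x.2 e ≤ (L.map (fun y => y.2 e)).sum :=
          Multiset.single_le_sum (fun _ _ => Nat.zero_le _) _ (Multiset.mem_map_of_mem _ hx)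
        rw [tot_eq, hno e hex, sgn, if_pos he] at h1
        omega⟩) univ
    (fun e he => by
      have h1 := hp' e
      by_cases hex : ∃ y ∈ L, y.1 = e
      · obtain ⟨y, hy, rfl⟩ := hex
        rw [tot_eq, hz y hy, (hsep y hy).1, sgn, if_pos he] at h1
        omega
      · push Not at hex
        rw [tot_eq, hno e hex, sgn, if_pos he] at h1
        rw [hno e hex]
        omega)
    (fun e he => by
      have h1 := hp' e
      rw [tot_eq, hno e (fun y hy h => he (h ▸ hR y hy)), sgn, if_neg he] at h1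
      omega)
  exact ⟨f, fun r hr => (hf1 r (mem_univ _) hr).2,
    fun r₁ r₂ => hf2 r₁ (mem_univ _) r₂ (mem_univ _)⟩

variable {E' : Type} [Fintype E'] [DecidableEq E'] (φ : E' → Fin 14) (R : Finset (Fin 14))

theorem packing_of_frac0 (hE : Ev (fun x => sv (φ x)) (fun x => tv (φ x)) univ)
    (w : Finset E' → ℝ) (h0 : ∀ C, 0 ≤ w C)
    (h1 : ∀ C, w C ≠ 0 → Circ (fun x => sv (φ x)) (fun x => tv (φ x)) C ∧
      (C.filter (fun e => φ e ∈ R)).card = 1)
    (h2 : ∀ e, φ e ∈ R → (∑ C : Finset E', if e ∈ C then w C else 0) = 1)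
    (h3 : ∀ e, φ e ∉ R → (∑ C : Finset E', if e ∈ C then w C else 0) ≤ 1) :
    ∃ f : E' → Finset E', (∀ r, φ r ∈ R →
        Circ (fun x => sv (φ x)) (fun x => tv (φ x)) (f r) ∧
          (f r).filter (fun e => φ e ∈ R) = {r}) ∧
      ∀ r₁ r₂, φ r₁ ∈ R → φ r₂ ∈ R → r₁ ≠ r₂ → Disjoint (f r₁) (f r₂) := by
  refine packing_of_rep0 sv tv φ R (rep_of_good (good_of_inCone ?_
    (inCone_of_frac φ R w h0 h1 h2 h3)))
  refine ((ev_iff sv tv φ univ).1 hE).of_congr fun e => ?_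
  unfold sgn
  split_ifs
  · exact ⟨-(cnt φ univ e : ℤ), by ring⟩
  · simp

theorem no_frac (w : Finset (Fin 19) → ℝ) (h0 : ∀ C, 0 ≤ w C)
    (h1 : ∀ C, w C ≠ 0 → Circ (fun x => sv (φ₀ x)) (fun x => tv (φ₀ x)) C ∧
      (C.filter (fun e => φ₀ e ∈ R₀)).card = 1)
    (h2 : ∀ e, φ₀ e ∈ R₀ → (∑ C : Finset (Fin 19), if e ∈ C then w C else 0) = 1)
    (h3 : ∀ e, φ₀ e ∉ R₀ → (∑ C : Finset (Fin 19), if e ∈ C then w C else 0) ≤ 1) : False :=
  no_packing (packing_of_frac0 φ₀ R₀ euler₀ w h0 h1 h2 h3)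

end Pool.Agent.P.MP_af70e5_co
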